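import Mathlib

/-!
Estimates for the kernels: weighted `L²` bounds.
-/

open MeasureTheory Filter Topology

namespace Aluthge.Ker53

/-- Change of variables `v = e^y`. -/
theorem lintegral_exp_le (G : ℝ → ℝ) :
    ∫⁻ y : ℝ, ENNReal.ofReal (Real.exp y * G (Real.exp y)) ≤ ∫⁻ v : ℝ, ENNReal.ofReal (G v) := by
  have h := lintegral_image_eq_lintegral_abs_deriv_mul (s := Set.univ) (f := Real.exp)
    (f' := Real.exp) MeasurableSet.univ (fun x _ => (Real.hasDerivAt_exp x).hasDerivWithinAt)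
    (Real.exp_injective.injOn) (fun v => ENNReal.ofReal (G v))
  rw [Measure.restrict_univ] at h
  calc ∫⁻ y : ℝ, ENNReal.ofReal (Real.exp y * G (Real.exp y))
      = ∫⁻ y : ℝ, ENNReal.ofReal |Real.exp y| * ENNReal.ofReal (G (Real.exp y)) := by
        refine lintegral_congr fun y => ?_
        rw [abs_of_pos (Real.exp_pos y), ENNReal.ofReal_mul (Real.exp_pos y).le]
    _ = ∫⁻ v in Real.exp '' Set.univ, ENNReal.ofReal (G v) := h.symm
    _ ≤ ∫⁻ v : ℝ, ENNReal.ofReal (G v) := setLIntegral_le_lintegral _ _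

/-- The arctangent integral. -/
theorem lintegral_arctan {ε : ℝ} (hε : 0 < ε) (w : ℝ) :
    ∫⁻ v : ℝ, ENNReal.ofReal ((1 + (ε * (w - v) / 2) ^ 2)⁻¹) = ENNReal.ofReal (2 * Real.pi / ε) := by
  have hi : Integrable (fun v : ℝ => (1 + (ε * (w - v) / 2) ^ 2)⁻¹) := by
    have h1 := (integrable_inv_one_add_sq.comp_mul_right' (R := (ε / 2)) (by positivity)).comp_sub_right w
    refine h1.congr ?_
    filter_upwards with v
    congr 2
    ring
  rw [← ofReal_integral_eq_lintegral_ofReal hi (by filter_upwards with v; positivity)]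
  congr 1
  have h2 : ∫ v : ℝ, (1 + (ε * (w - v) / 2) ^ 2)⁻¹ = ∫ v : ℝ, (1 + ((v - w) * (ε / 2)) ^ 2)⁻¹ := by
    refine integral_congr_ae ?_
    filter_upwards with v
    congr 2
    ring
  rw [h2, integral_sub_right_eq_self (fun v : ℝ => (1 + (v * (ε / 2)) ^ 2)⁻¹) w,
    Measure.integral_comp_mul_right (fun v : ℝ => (1 + v ^ 2)⁻¹) (ε / 2),
    integral_univ_inv_one_add_sq, abs_of_pos (by positivity)]
  simp only [smul_eq_mul]
  field_simp

theorem lintegral_J {ε : ℝ} (hε : 0 < ε) (w : ℝ) :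
    ∫⁻ y : ℝ, ENNReal.ofReal (Real.exp y * (1 + (ε * (w - Real.exp y) / 2) ^ 2)⁻¹)
      ≤ ENNReal.ofReal (2 * Real.pi / ε) := by
  rw [← lintegral_arctan hε w]
  exact lintegral_exp_le (fun v => (1 + (ε * (w - v) / 2) ^ 2)⁻¹)

/-- The decay profile. -/
noncomputable def Dp (x : ℝ) : ℝ := Real.exp x * Real.exp (-(Real.exp x) / 4)

theorem Dp_pos (x : ℝ) : 0 < Dp x := by unfold Dp; positivity

theorem Dp_cont : Continuous Dp := by unfold Dp; fun_prop

theorem Dp_sq (x : ℝ) : Dp x ^ 2 = Real.exp x * (Real.exp x * Real.exp (-(Real.exp x) / 2)) := by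
  unfold Dp
  rw [mul_pow, ← Real.exp_nat_mul (-(Real.exp x) / 4) 2]
  have : ((2 : ℕ) : ℝ) * (-(Real.exp x) / 4) = -(Real.exp x) / 2 := by push_cast; ring
  rw [this]
  ring

theorem Dp_sq_le (x : ℝ) : Dp x ^ 2 ≤ Real.exp x := by
  rw [Dp_sq]
  have ht : 0 < Real.exp x := Real.exp_pos x
  set t := Real.exp x
  have h1 : t ≤ Real.exp (t / 2) := by
    have := Real.quadratic_le_exp_of_nonneg (x := t / 2) (by positivity)
    nlinarith [sq_nonneg (t - 2)]
  have h2 : t * Real.exp (-t / 2) ≤ 1 := by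
    have h3 : Real.exp (-t / 2) = (Real.exp (t / 2))⁻¹ := by
      rw [← Real.exp_neg]; congr 1; ring
    rw [h3, ← div_eq_mul_inv, div_le_one (Real.exp_pos _)]
    exact h1
  calc t * (t * Real.exp (-t / 2)) ≤ t * 1 := by gcongr
    _ = t := mul_one t

theorem Dp_sq_le' (x : ℝ) :
    Dp x ^ 2 ≤ 50 * (Real.exp x * (1 + (2 * (0 - Real.exp x) / 2) ^ 2)⁻¹) := by
  rw [Dp_sq]
  have ht : 0 < Real.exp x := Real.exp_pos x
  set t := Real.exp x
  have e1 : (1 + (2 * (0 - t) / 2) ^ 2) = 1 + t ^ 2 := by ring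
  rw [e1]
  have h1 : t * (1 + t ^ 2) ≤ 50 * Real.exp (t / 2) := by
    have h2 := Real.pow_div_factorial_le_exp (t / 2) (by positivity) 3
    have h3 := Real.pow_div_factorial_le_exp (t / 2) (by positivity) 1
    norm_num [Nat.factorial] at h2 h3
    nlinarith
  have h3 : Real.exp (-t / 2) = (Real.exp (t / 2))⁻¹ := by
    rw [← Real.exp_neg]; congr 1; ring
  rw [h3]
  have h4 : 0 < Real.exp (t / 2) := Real.exp_pos _
  have h5 : 0 < 1 + t ^ 2 := by positivity
  have h6 : t * (Real.exp (t / 2))⁻¹ ≤ 50 * (1 + t ^ 2)⁻¹ := by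
    rw [← div_eq_mul_inv, ← div_eq_mul_inv, div_le_div_iff₀ h4 h5]
    exact h1
  calc t * (t * (Real.exp (t / 2))⁻¹) ≤ t * (50 * (1 + t ^ 2)⁻¹) := by gcongr
    _ = 50 * (t * (1 + t ^ 2)⁻¹) := by ring

theorem lintegral_Dp_sq : ∫⁻ x : ℝ, ENNReal.ofReal (Dp x ^ 2) ≤ ENNReal.ofReal (50 * Real.pi) := by
  calc ∫⁻ x : ℝ, ENNReal.ofReal (Dp x ^ 2)
      ≤ ∫⁻ x : ℝ, ENNReal.ofReal 50 *
          ENNReal.ofReal (Real.exp x * (1 + (2 * (0 - Real.exp x) / 2) ^ 2)⁻¹) := by
        refine lintegral_mono fun x => ?_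
        rw [← ENNReal.ofReal_mul (by norm_num)]
        exact ENNReal.ofReal_le_ofReal (Dp_sq_le' x)
    _ = ENNReal.ofReal 50 *
          ∫⁻ x : ℝ, ENNReal.ofReal (Real.exp x * (1 + (2 * (0 - Real.exp x) / 2) ^ 2)⁻¹) := by
        rw [lintegral_const_mul']
        exact ENNReal.ofReal_ne_top
    _ ≤ ENNReal.ofReal 50 * ENNReal.ofReal (2 * Real.pi / 2) := by
        gcongr
        exact lintegral_J (by norm_num) 0
    _ = ENNReal.ofReal (50 * Real.pi) := by
        rw [← ENNReal.ofReal_mul (by norm_num)]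
        congr 1
        ring

/-- The cutoff factor. -/
noncomputable def q (ε : ℝ) (p : ℝ × ℝ) : ℝ :=
  (Real.sqrt (1 + (ε * (Real.exp p.1 - Real.exp p.2) / 2) ^ 2))⁻¹

theorem q_nonneg (ε : ℝ) (p : ℝ × ℝ) : 0 ≤ q ε p := by unfold q; positivity

theorem q_sq (ε : ℝ) (p : ℝ × ℝ) :
    q ε p ^ 2 = (1 + (ε * (Real.exp p.1 - Real.exp p.2) / 2) ^ 2)⁻¹ := by
  unfold q
  rw [inv_pow, Real.sq_sqrt (by positivity)]

theorem q_cont (ε : ℝ) : Continuous (q ε) := by
  unfold q
  refine Continuous.inv₀ (by fun_prop) fun p => ?_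
  have : 0 < 1 + (ε * (Real.exp p.1 - Real.exp p.2) / 2) ^ 2 := by positivity
  exact (Real.sqrt_pos.2 this).ne'

/-- From a bound of the integral of the square to a bound of the norm. -/
theorem eLpNorm_le_of {f : ℝ × ℝ → ℝ} {M : ℝ} (hM : 0 ≤ M)
    (h : ∫⁻ p : ℝ × ℝ, ENNReal.ofReal (f p ^ 2) ≤ ENNReal.ofReal (M ^ 2)) :
    eLpNorm f 2 (volume : Measure (ℝ × ℝ)) ≤ ENNReal.ofReal M := by
  rw [eLpNorm_eq_lintegral_rpow_enorm_toReal (by norm_num) (by norm_num)]
  have h1 : ∫⁻ p : ℝ × ℝ, ‖f p‖ₑ ^ (2 : ENNReal).toReal ≤ ENNReal.ofReal (M ^ 2) := by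
    refine le_trans (le_of_eq ?_) h
    refine lintegral_congr fun p => ?_
    rw [← ofReal_norm, ENNReal.toReal_ofNat, ENNReal.ofReal_rpow_of_nonneg (norm_nonneg _)
      (by norm_num)]
    congr 1
    rw [Real.norm_eq_abs]
    norm_num
  calc (∫⁻ p : ℝ × ℝ, ‖f p‖ₑ ^ (2 : ENNReal).toReal) ^ (1 / (2 : ENNReal).toReal)
      ≤ (ENNReal.ofReal (M ^ 2)) ^ (1 / (2 : ENNReal).toReal) := by
        gcongr
    _ = ENNReal.ofReal M := by
        rw [ENNReal.ofReal_rpow_of_nonneg (by positivity) (by positivity)]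
        congr 1
        rw [ENNReal.toReal_ofNat, ← Real.sqrt_eq_rpow, Real.sqrt_sq hM]

/-- The basic weighted bound. -/
theorem base_bound {ε L : ℝ} (hε : 0 < ε) :
    eLpNorm (fun p : ℝ × ℝ => q ε p * (Dp (p.1 + L) * Dp (p.2 + L))) 2
      (volume : Measure (ℝ × ℝ))
      ≤ ENNReal.ofReal (10 * Real.pi * Real.sqrt (Real.exp L / ε)) := by
  refine eLpNorm_le_of (by positivity) ?_
  have hmeas : Measurable fun p : ℝ × ℝ =>
      ENNReal.ofReal ((q ε p * (Dp (p.1 + L) * Dp (p.2 + L))) ^ 2) := by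
    refine Measurable.ennreal_ofReal ?_
    have h1 := q_cont ε
    have h2 : Continuous fun p : ℝ × ℝ => Dp (p.1 + L) := Dp_cont.comp (by fun_prop)
    have h3 : Continuous fun p : ℝ × ℝ => Dp (p.2 + L) := Dp_cont.comp (by fun_prop)
    exact ((h1.mul (h2.mul h3)).pow 2).measurable
  have e0 : (volume : Measure (ℝ × ℝ)) = (volume : Measure ℝ).prod (volume : Measure ℝ) := rfl
  rw [e0, lintegral_prod _ hmeas.aemeasurable]
  have hinner : ∀ x : ℝ, ∫⁻ y : ℝ,
      ENNReal.ofReal ((q ε (x, y) * (Dp (x + L) * Dp (y + L))) ^ 2)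
      ≤ ENNReal.ofReal (Dp (x + L) ^ 2) * ENNReal.ofReal (Real.exp L * (2 * Real.pi / ε)) := by
    intro x
    calc ∫⁻ y : ℝ, ENNReal.ofReal ((q ε (x, y) * (Dp (x + L) * Dp (y + L))) ^ 2)
        ≤ ∫⁻ y : ℝ, ENNReal.ofReal (Dp (x + L) ^ 2 * Real.exp L) *
            ENNReal.ofReal (Real.exp y * (1 + (ε * (Real.exp x - Real.exp y) / 2) ^ 2)⁻¹) := by
          refine lintegral_mono fun y => ?_
          rw [← ENNReal.ofReal_mul (by positivity)]
          refine ENNReal.ofReal_le_ofReal ?_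
          rw [mul_pow, mul_pow, q_sq]
          have h1 := Dp_sq_le (y + L)
          rw [Real.exp_add] at h1
          have h2 : 0 ≤ (1 + (ε * (Real.exp x - Real.exp y) / 2) ^ 2)⁻¹ := by positivity
          have h3 : 0 ≤ Dp (x + L) ^ 2 := by positivity
          calc (1 + (ε * (Real.exp x - Real.exp y) / 2) ^ 2)⁻¹ * (Dp (x + L) ^ 2 * Dp (y + L) ^ 2)
              ≤ (1 + (ε * (Real.exp x - Real.exp y) / 2) ^ 2)⁻¹ *
                (Dp (x + L) ^ 2 * (Real.exp y * Real.exp L)) := by gcongr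
            _ = Dp (x + L) ^ 2 * Real.exp L *
                (Real.exp y * (1 + (ε * (Real.exp x - Real.exp y) / 2) ^ 2)⁻¹) := by ring
      _ = ENNReal.ofReal (Dp (x + L) ^ 2 * Real.exp L) * ∫⁻ y : ℝ,
            ENNReal.ofReal (Real.exp y * (1 + (ε * (Real.exp x - Real.exp y) / 2) ^ 2)⁻¹) := by
          rw [lintegral_const_mul']
          exact ENNReal.ofReal_ne_top
      _ ≤ ENNReal.ofReal (Dp (x + L) ^ 2 * Real.exp L) * ENNReal.ofReal (2 * Real.pi / ε) := by
          gcongr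
          exact lintegral_J hε (Real.exp x)
      _ = ENNReal.ofReal (Dp (x + L) ^ 2) * ENNReal.ofReal (Real.exp L * (2 * Real.pi / ε)) := by
          rw [← ENNReal.ofReal_mul (by positivity), ← ENNReal.ofReal_mul (by positivity)]
          congr 1
          ring
  calc ∫⁻ x : ℝ, ∫⁻ y : ℝ, ENNReal.ofReal ((q ε (x, y) * (Dp (x + L) * Dp (y + L))) ^ 2)
      ≤ ∫⁻ x : ℝ, ENNReal.ofReal (Dp (x + L) ^ 2) *
          ENNReal.ofReal (Real.exp L * (2 * Real.pi / ε)) := lintegral_mono hinner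
    _ = (∫⁻ x : ℝ, ENNReal.ofReal (Dp (x + L) ^ 2)) *
          ENNReal.ofReal (Real.exp L * (2 * Real.pi / ε)) := by
        rw [lintegral_mul_const']
        exact ENNReal.ofReal_ne_top
    _ = (∫⁻ x : ℝ, ENNReal.ofReal (Dp x ^ 2)) *
          ENNReal.ofReal (Real.exp L * (2 * Real.pi / ε)) := by
        rw [lintegral_add_right_eq_self (fun x : ℝ => ENNReal.ofReal (Dp x ^ 2)) L]
    _ ≤ ENNReal.ofReal (50 * Real.pi) * ENNReal.ofReal (Real.exp L * (2 * Real.pi / ε)) := by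
        gcongr
        exact lintegral_Dp_sq
    _ = ENNReal.ofReal ((10 * Real.pi * Real.sqrt (Real.exp L / ε)) ^ 2) := by
        rw [← ENNReal.ofReal_mul (by positivity)]
        congr 1
        rw [mul_pow, Real.sq_sqrt (by positivity)]
        ring

/-- The norm of the profile itself. -/
theorem base_bound0 :
    eLpNorm (fun p : ℝ × ℝ => Dp p.1 * Dp p.2) 2 (volume : Measure (ℝ × ℝ))
      ≤ ENNReal.ofReal (50 * Real.pi) := by
  refine eLpNorm_le_of (by positivity) ?_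
  have e0 : (volume : Measure (ℝ × ℝ)) = (volume : Measure ℝ).prod (volume : Measure ℝ) := rfl
  have e1 : ∀ p : ℝ × ℝ, ENNReal.ofReal ((Dp p.1 * Dp p.2) ^ 2)
      = ENNReal.ofReal (Dp p.1 ^ 2) * ENNReal.ofReal (Dp p.2 ^ 2) := by
    intro p
    rw [← ENNReal.ofReal_mul (by positivity), mul_pow]
  simp only [e1]
  rw [e0, lintegral_prod_mul (f := fun x => ENNReal.ofReal (Dp x ^ 2))
    (g := fun x => ENNReal.ofReal (Dp x ^ 2))
    (Dp_cont.pow 2).measurable.ennreal_ofReal.aemeasurable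
    (Dp_cont.pow 2).measurable.ennreal_ofReal.aemeasurable, sq (50 * Real.pi),
    ENNReal.ofReal_mul (by positivity)]
  exact mul_le_mul' lintegral_Dp_sq lintegral_Dp_sq

/-- The linear majorant of the kernels. -/
noncomputable def G (L : ℝ) : ℕ → ℝ × ℝ → ℝ
  | 0, p => Dp p.1 * Dp p.2
  | n + 1, p => (G L n p + G L n (p + (L, L))) / 2

theorem G_nonneg (L : ℝ) : ∀ n p, 0 ≤ G L n p
  | 0, p => by
      have h1 := Dp_pos p.1
      have h2 := Dp_pos p.2
      unfold G
      positivity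
  | n + 1, p => by
      have h1 := G_nonneg L n p
      have h2 := G_nonneg L n (p + (L, L))
      unfold G
      positivity

theorem G_cont (L : ℝ) : ∀ n, Continuous (G L n)
  | 0 => by
      have h2 : Continuous fun p : ℝ × ℝ => Dp p.1 := Dp_cont.comp (by fun_prop)
      have h3 : Continuous fun p : ℝ × ℝ => Dp p.2 := Dp_cont.comp (by fun_prop)
      have : G L 0 = fun p => Dp p.1 * Dp p.2 := by funext p; rfl
      rw [this]
      exact h2.mul h3
  | n + 1 => by
      have h := G_cont L n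
      have : G L (n + 1) = fun p => (G L n p + G L n (p + (L, L))) / 2 := by funext p; rfl
      rw [this]
      exact (h.add (h.comp (by fun_prop))).div_const 2

theorem G_bound {ε a : ℝ} (hε : 0 < ε) (ha : 0 < a) :
    ∀ n j : ℕ, eLpNorm (fun p : ℝ × ℝ => q ε p *
        G (Real.log a) n (p + (j * Real.log a, j * Real.log a))) 2 (volume : Measure (ℝ × ℝ))
      ≤ ENNReal.ofReal (10 * Real.pi * Real.sqrt (a ^ j / ε) * ((1 + Real.sqrt a) / 2) ^ n) := by
  intro n
  induction n with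
  | zero =>
      intro j
      have h := base_bound (ε := ε) (L := j * Real.log a) hε
      have h1 : Real.exp (j * Real.log a) = a ^ j := by
        rw [Real.exp_nat_mul, Real.exp_log ha]
      rw [h1] at h
      simpa [G] using h
  | succ n ih =>
      intro j
      have h1 := ih j
      have h2 := ih (j + 1)
      set L := Real.log a
      have e1 : (fun p : ℝ × ℝ => q ε p * G L (n + 1) (p + (j * L, j * L)))
          = (1 / 2 : ℝ) • ((fun p : ℝ × ℝ => q ε p * G L n (p + (j * L, j * L)))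
            + fun p : ℝ × ℝ => q ε p * G L n (p + (((j + 1 : ℕ) : ℝ) * L, ((j + 1 : ℕ) : ℝ) * L))) := by
        funext p
        have e2 : p + (((j + 1 : ℕ) : ℝ) * L, ((j + 1 : ℕ) : ℝ) * L)
            = p + (j * L, j * L) + (L, L) := by
          ext <;> · push_cast; simp; ring
        simp only [Pi.smul_apply, Pi.add_apply, smul_eq_mul, e2]
        show q ε p * ((G L n (p + (j * L, j * L)) + G L n (p + (j * L, j * L) + (L, L))) / 2) = _
        ring
      have m1 : AEStronglyMeasurable (fun p : ℝ × ℝ => q ε p * G L n (p + (j * L, j * L)))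
          (volume : Measure (ℝ × ℝ)) :=
        ((q_cont ε).mul ((G_cont L n).comp (by fun_prop))).aestronglyMeasurable
      have m2 : AEStronglyMeasurable (fun p : ℝ × ℝ => q ε p *
          G L n (p + (((j + 1 : ℕ) : ℝ) * L, ((j + 1 : ℕ) : ℝ) * L)))
          (volume : Measure (ℝ × ℝ)) :=
        ((q_cont ε).mul ((G_cont L n).comp (by fun_prop))).aestronglyMeasurable
      rw [e1, eLpNorm_const_smul]
      have h3 := eLpNorm_add_le m1 m2 (by norm_num : (1 : ENNReal) ≤ 2)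
      have hs : Real.sqrt (a ^ (j + 1) / ε) = Real.sqrt a * Real.sqrt (a ^ j / ε) := by
        rw [← Real.sqrt_mul ha.le]
        congr 1
        ring
      calc ‖(1 / 2 : ℝ)‖ₑ * eLpNorm ((fun p : ℝ × ℝ => q ε p * G L n (p + (j * L, j * L)))
            + fun p : ℝ × ℝ => q ε p *
              G L n (p + (((j + 1 : ℕ) : ℝ) * L, ((j + 1 : ℕ) : ℝ) * L))) 2 volume
          ≤ ENNReal.ofReal (1 / 2) * (ENNReal.ofReal
              (10 * Real.pi * Real.sqrt (a ^ j / ε) * ((1 + Real.sqrt a) / 2) ^ n)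
            + ENNReal.ofReal
              (10 * Real.pi * Real.sqrt (a ^ (j + 1) / ε) * ((1 + Real.sqrt a) / 2) ^ n)) := by
            have : ‖(1 / 2 : ℝ)‖ₑ = ENNReal.ofReal (1 / 2) := by
              rw [← ofReal_norm, Real.norm_eq_abs, abs_of_pos (by norm_num)]
            rw [this]
            gcongr
            exact h3.trans (add_le_add h1 h2)
        _ = ENNReal.ofReal
              (10 * Real.pi * Real.sqrt (a ^ j / ε) * ((1 + Real.sqrt a) / 2) ^ (n + 1)) := by
            rw [← ENNReal.ofReal_add (by positivity) (by positivity),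
              ← ENNReal.ofReal_mul (by norm_num)]
            congr 1
            rw [hs]
            ring

end Aluthge.Ker53
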