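import Pool.Agent.Work.MP_943409_an_helper53.K2
import Pool.Agent.Work.MP_943409_an_helper53.K3

/-!
Block KER.
-/

open Complex MeasureTheory Filter Topology
open scoped ComplexOrder InnerProductSpace ComplexConjugate

namespace Aluthge

namespace Ker53

/-- The multiplier. -/
noncomputable def sm (ε x : ℝ) : ℝ := Real.exp (-(ε * Real.exp x))

theorem sm_pos (ε x : ℝ) : 0 < sm ε x := Real.exp_pos _

theorem sm_cont (ε : ℝ) : Continuous (sm ε) := by unfold sm; fun_prop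

theorem sm_le {ε : ℝ} (hε : 0 ≤ ε) (x : ℝ) : |sm ε x| ≤ 1 := by
  rw [abs_of_pos (sm_pos _ _)]
  unfold sm
  rw [Real.exp_le_one_iff]
  have : 0 ≤ ε * Real.exp x := by positivity
  linarith

/-- The factor of the recursion. -/
noncomputable def hh (ε : ℝ) (p : ℝ × ℝ) : ℝ :=
  sm (ε / 2) p.1 * sm (ε / 2) p.2 / (sm ε p.1 + sm ε p.2)

theorem hh_nonneg (ε : ℝ) (p : ℝ × ℝ) : 0 ≤ hh ε p := by
  have h1 := sm_pos (ε / 2) p.1
  have h2 := sm_pos (ε / 2) p.2
  have h3 := sm_pos ε p.1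
  have h4 := sm_pos ε p.2
  unfold hh
  positivity

theorem hh_cont (ε : ℝ) : Continuous (hh ε) := by
  unfold hh
  refine Continuous.div ?_ ?_ ?_
  · exact ((sm_cont _).comp continuous_fst).mul ((sm_cont _).comp continuous_snd)
  · exact ((sm_cont _).comp continuous_fst).add ((sm_cont _).comp continuous_snd)
  · intro p
    have h3 := sm_pos ε p.1
    have h4 := sm_pos ε p.2
    positivity

theorem sqrt_le_cosh (z : ℝ) : Real.sqrt (1 + z ^ 2) ≤ Real.cosh z := by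
  rw [Real.sqrt_le_left (Real.cosh_pos z).le, Real.cosh_sq]
  have h1 : |z| ≤ |Real.sinh z| := by
    rw [Real.abs_sinh]
    exact Real.self_le_sinh_iff.2 (abs_nonneg z)
  have h2 : z ^ 2 ≤ Real.sinh z ^ 2 := sq_le_sq.2 h1
  linarith

theorem hh_le (ε : ℝ) (p : ℝ × ℝ) : hh ε p ≤ q ε p / 2 := by
  have h3 := sm_pos ε p.1
  have h4 := sm_pos ε p.2
  set z := ε * (Real.exp p.1 - Real.exp p.2) / 2 with hz
  have h5 : 0 < Real.sqrt (1 + z ^ 2) := Real.sqrt_pos.2 (by positivity)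
  have e1 : sm ε p.1 + sm ε p.2
      = sm (ε / 2) p.1 * sm (ε / 2) p.2 * (2 * Real.cosh z) := by
    rw [Real.cosh_eq]
    unfold sm
    rw [hz, ← Real.exp_add]
    have : Real.exp (-(ε / 2 * Real.exp p.1) + -(ε / 2 * Real.exp p.2)) *
        (2 * ((Real.exp (ε * (Real.exp p.1 - Real.exp p.2) / 2) +
          Real.exp (-(ε * (Real.exp p.1 - Real.exp p.2) / 2))) / 2))
        = Real.exp (-(ε / 2 * Real.exp p.1) + -(ε / 2 * Real.exp p.2)) *
            Real.exp (-(ε * (Real.exp p.1 - Real.exp p.2) / 2))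
          + Real.exp (-(ε / 2 * Real.exp p.1) + -(ε / 2 * Real.exp p.2)) *
            Real.exp (ε * (Real.exp p.1 - Real.exp p.2) / 2) := by ring
    rw [this, ← Real.exp_add, ← Real.exp_add]
    congr 2 <;> ring
  have h6 : 0 < sm (ε / 2) p.1 * sm (ε / 2) p.2 :=
    mul_pos (sm_pos _ _) (sm_pos _ _)
  have h7 : 0 < Real.cosh z := Real.cosh_pos z
  unfold hh q
  rw [e1, ← hz]
  have e2 : sm (ε / 2) p.1 * sm (ε / 2) p.2 /
      (sm (ε / 2) p.1 * sm (ε / 2) p.2 * (2 * Real.cosh z)) = (Real.cosh z)⁻¹ / 2 := by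
    generalize sm (ε / 2) p.1 * sm (ε / 2) p.2 = X at h6
    field_simp
  rw [e2]
  gcongr
  exact sqrt_le_cosh z

theorem q_le_one (ε : ℝ) (p : ℝ × ℝ) : q ε p ≤ 1 := by
  unfold q
  apply inv_le_one_of_one_le₀
  rw [Real.one_le_sqrt]
  nlinarith [sq_nonneg (ε * (Real.exp p.1 - Real.exp p.2) / 2)]

theorem hh_mul (ε : ℝ) (p : ℝ × ℝ) :
    (sm ε p.1 + sm ε p.2) * hh ε p = sm (ε / 2) p.1 * sm (ε / 2) p.2 := by
  have h3 := sm_pos ε p.1
  have h4 := sm_pos ε p.2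
  unfold hh
  field_simp

theorem hh_swap (ε : ℝ) (p : ℝ × ℝ) : hh ε p.swap = hh ε p := by
  unfold hh
  simp only [Prod.fst_swap, Prod.snd_swap]
  rw [mul_comm (sm (ε / 2) p.2), add_comm (sm ε p.2)]

/-- The kernels. -/
noncomputable def kk (ε₀ c L : ℝ) (k0 : ℝ × ℝ → ℂ) : ℕ → ℝ × ℝ → ℂ
  | 0, p => k0 p
  | n + 1, p => (hh (ε₀ * c ^ n) p : ℂ) * (kk ε₀ c L k0 n p + kk ε₀ c L k0 n (p + (L, L)))

theorem kk_meas (ε₀ c L : ℝ) {k0 : ℝ × ℝ → ℂ} (h0 : Measurable k0) :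
    ∀ n, Measurable (kk ε₀ c L k0 n)
  | 0 => h0
  | n + 1 => by
      have h := kk_meas ε₀ c L h0 n
      have : kk ε₀ c L k0 (n + 1) = fun p => (hh (ε₀ * c ^ n) p : ℂ) *
        (kk ε₀ c L k0 n p + kk ε₀ c L k0 n (p + (L, L))) := by funext p; rfl
      rw [this]
      refine Measurable.mul ?_ (h.add (h.comp (by fun_prop)))
      exact Complex.measurable_ofReal.comp (hh_cont _).measurable

theorem kk_bound (ε₀ c L C : ℝ) {k0 : ℝ × ℝ → ℂ} (hb : ∀ p, ‖k0 p‖ ≤ C * (Dp p.1 * Dp p.2)) :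
    (∀ n p, ‖kk ε₀ c L k0 n p‖ ≤ C * G L n p) ∧
    ∀ n p, ‖kk ε₀ c L k0 (n + 1) p‖ ≤ C * (q (ε₀ * c ^ n) p * G L (n + 1) p) := by
  have hC : 0 ≤ C := by
    have h1 := hb (0, 0)
    have h2 := Dp_pos 0
    have h3 : 0 ≤ C * (Dp 0 * Dp 0) := (norm_nonneg _).trans h1
    exact nonneg_of_mul_nonneg_left h3 (by positivity)
  have hstep : ∀ n, (∀ p, ‖kk ε₀ c L k0 n p‖ ≤ C * G L n p) →
      ∀ p, ‖kk ε₀ c L k0 (n + 1) p‖ ≤ C * (q (ε₀ * c ^ n) p * G L (n + 1) p) := by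
    intro n ih p
    have h1 := ih p
    have h2 := ih (p + (L, L))
    have h3 := hh_le (ε₀ * c ^ n) p
    have h4 := hh_nonneg (ε₀ * c ^ n) p
    show ‖(hh (ε₀ * c ^ n) p : ℂ) * (kk ε₀ c L k0 n p + kk ε₀ c L k0 n (p + (L, L)))‖
      ≤ C * (q (ε₀ * c ^ n) p * ((G L n p + G L n (p + (L, L))) / 2))
    rw [norm_mul, Complex.norm_real, Real.norm_eq_abs, abs_of_nonneg h4]
    have h5 : ‖kk ε₀ c L k0 n p + kk ε₀ c L k0 n (p + (L, L))‖
        ≤ C * G L n p + C * G L n (p + (L, L)) :=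
      (norm_add_le _ _).trans (add_le_add h1 h2)
    calc hh (ε₀ * c ^ n) p * ‖kk ε₀ c L k0 n p + kk ε₀ c L k0 n (p + (L, L))‖
        ≤ q (ε₀ * c ^ n) p / 2 * (C * G L n p + C * G L n (p + (L, L))) := by
          gcongr
          exact div_nonneg (q_nonneg _ _) (by norm_num)
      _ = C * (q (ε₀ * c ^ n) p * ((G L n p + G L n (p + (L, L))) / 2)) := by ring
  have hall : ∀ n p, ‖kk ε₀ c L k0 n p‖ ≤ C * G L n p := by
    intro n
    induction n with
    | zero => exact hb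
    | succ n ih =>
        intro p
        refine (hstep n ih p).trans ?_
        have h1 := q_le_one (ε₀ * c ^ n) p
        have h2 := G_nonneg L (n + 1) p
        have h3 : q (ε₀ * c ^ n) p * G L (n + 1) p ≤ 1 * G L (n + 1) p := by gcongr
        rw [one_mul] at h3
        gcongr
  exact ⟨hall, fun n => hstep n (hall n)⟩

theorem kk_swap (ε₀ c L : ℝ) {k0 : ℝ × ℝ → ℂ} (hb : ∀ p, conj (k0 p.swap) = k0 p) :
    ∀ n p, conj (kk ε₀ c L k0 n p.swap) = kk ε₀ c L k0 n p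
  | 0, p => hb p
  | n + 1, p => by
      have h1 := kk_swap ε₀ c L hb n p
      have h2 := kk_swap ε₀ c L hb n (p + (L, L))
      have e : (p + (L, L)).swap = p.swap + (L, L) := by ext <;> simp
      rw [e] at h2
      show conj ((hh (ε₀ * c ^ n) p.swap : ℂ) *
        (kk ε₀ c L k0 n p.swap + kk ε₀ c L k0 n (p.swap + (L, L)))) = _
      rw [map_mul, map_add, h1, h2, hh_swap, Complex.conj_ofReal]
      rfl

theorem kk_memLp (ε₀ c a C : ℝ) {k0 : ℝ × ℝ → ℂ}
    (hb : ∀ p, ‖k0 p‖ ≤ C * (Dp p.1 * Dp p.2)) (hε : 0 < ε₀) (hc : 0 < c) (ha : 0 < a) :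
    (eLpNorm (kk ε₀ c (Real.log a) k0 0) 2 (volume : Measure (ℝ × ℝ))
      ≤ ENNReal.ofReal (C * (50 * Real.pi))) ∧
    ∀ n, eLpNorm (kk ε₀ c (Real.log a) k0 (n + 1)) 2 (volume : Measure (ℝ × ℝ))
      ≤ ENNReal.ofReal (C * (10 * Real.pi * Real.sqrt (c / ε₀) *
        (((1 + Real.sqrt a) / 2) / Real.sqrt c) ^ (n + 1))) := by
  have hC : 0 ≤ C := by
    have h1 := hb (0, 0)
    have h2 := Dp_pos 0
    have h3 : 0 ≤ C * (Dp 0 * Dp 0) := (norm_nonneg _).trans h1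
    exact nonneg_of_mul_nonneg_left h3 (by positivity)
  have hCn : ‖C‖ₑ = ENNReal.ofReal C := by
    rw [← ofReal_norm, Real.norm_eq_abs, abs_of_nonneg hC]
  refine ⟨?_, fun n => ?_⟩
  · calc eLpNorm (kk ε₀ c (Real.log a) k0 0) 2 (volume : Measure (ℝ × ℝ))
        ≤ eLpNorm (fun p : ℝ × ℝ => C * (Dp p.1 * Dp p.2)) 2 volume := eLpNorm_mono_real hb
      _ = ‖C‖ₑ * eLpNorm (fun p : ℝ × ℝ => Dp p.1 * Dp p.2) 2 volume :=
          eLpNorm_const_smul C _ _ _
      _ ≤ ENNReal.ofReal C * ENNReal.ofReal (50 * Real.pi) := by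
          rw [hCn]
          gcongr
          exact base_bound0
      _ = ENNReal.ofReal (C * (50 * Real.pi)) := (ENNReal.ofReal_mul hC).symm
  · have hεn : 0 < ε₀ * c ^ n := by positivity
    have hG := G_bound (ε := ε₀ * c ^ n) (a := a) hεn ha (n + 1) 0
    simp only [Nat.cast_zero, zero_mul, pow_zero, Prod.mk_zero_zero, add_zero] at hG
    calc eLpNorm (kk ε₀ c (Real.log a) k0 (n + 1)) 2 (volume : Measure (ℝ × ℝ))
        ≤ eLpNorm (fun p : ℝ × ℝ => C * (q (ε₀ * c ^ n) p * G (Real.log a) (n + 1) p)) 2 volume :=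
          eLpNorm_mono_real ((kk_bound ε₀ c (Real.log a) C hb).2 n)
      _ = ‖C‖ₑ * eLpNorm (fun p : ℝ × ℝ => q (ε₀ * c ^ n) p * G (Real.log a) (n + 1) p) 2 volume :=
          eLpNorm_const_smul C _ _ _
      _ ≤ ENNReal.ofReal C * ENNReal.ofReal (10 * Real.pi * Real.sqrt (1 / (ε₀ * c ^ n)) *
            ((1 + Real.sqrt a) / 2) ^ (n + 1)) := by
          rw [hCn]
          gcongr
      _ = _ := by
          rw [← ENNReal.ofReal_mul hC]
          congr 2
          have h1 : Real.sqrt (1 / (ε₀ * c ^ n)) = Real.sqrt (c / ε₀) / Real.sqrt c ^ (n + 1) := by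
            rw [eq_div_iff (by positivity)]
            have h2 : Real.sqrt c ^ (n + 1) = Real.sqrt (c ^ (n + 1)) := by
              rw [← Real.sqrt_sq (show 0 ≤ Real.sqrt c ^ (n + 1) by positivity), ← pow_mul,
                mul_comm (n + 1) 2, pow_mul, Real.sq_sqrt hc.le]
            rw [h2, ← Real.sqrt_mul (by positivity)]
            congr 1
            field_simp
            ring
          rw [h1]
          generalize (1 + Real.sqrt a) / 2 = X
          rw [div_pow]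
          ring

end Ker53

open Ker53 in
theorem stmt_KER (hL : Stmt_L) : Stmt_KER := by
  intro a ε₀ W Wo J lam ψ ha ha1 hε hW hWo hlam hψ
  obtain ⟨hL1, -, -, -, -⟩ := hL
  choose Cd hCd0 hCd using hψ
  set L := Real.log a with hLdef
  set c : ℝ := (1 + a) / 2 with hc
  have hc0 : 0 < c := by positivity
  -- representatives with a pointwise bound
  set ψ' : Fin J → ℝ → ℂ := fun i x => if ‖ψ i x‖ ≤ Cd i * Dp x then ψ i x else 0 with hψ'
  have hψm : ∀ i, Measurable (ψ' i) := by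
    intro i
    have h1 : Measurable (ψ i : ℝ → ℂ) := (Lp.stronglyMeasurable (ψ i)).measurable
    exact Measurable.ite (measurableSet_le h1.norm (Dp_cont.measurable.const_mul _)) h1
      measurable_const
  have hψb : ∀ i x, ‖ψ' i x‖ ≤ Cd i * Dp x := by
    intro i x
    simp only [hψ']
    split_ifs with h
    · exact h
    · rw [norm_zero]
      exact mul_nonneg (hCd0 i) (Dp_pos x).le
  have hψe : ∀ i, ∀ᵐ x : ℝ, ψ' i x = ψ i x := by
    intro i
    filter_upwards [hCd i] with x hx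
    have hx' : ‖ψ i x‖ ≤ Cd i * Dp x := hx
    simp only [hψ']
    rw [if_pos hx']
  set k0 : ℝ × ℝ → ℂ := fun p => ∑ i, (lam i : ℂ) * (ψ' i p.1 * conj (ψ' i p.2)) with hk0
  have hk0m : Measurable k0 := by
    refine Finset.measurable_sum _ fun i _ => ?_
    refine Measurable.const_mul ?_ _
    exact ((hψm i).comp measurable_fst).mul
      (Complex.continuous_conj.measurable.comp ((hψm i).comp measurable_snd))
  set C : ℝ := ∑ i, lam i * (Cd i * Cd i) with hC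
  have hC0 : 0 ≤ C := Finset.sum_nonneg fun i _ =>
    mul_nonneg (hlam i) (mul_nonneg (hCd0 i) (hCd0 i))
  have hk0b : ∀ p, ‖k0 p‖ ≤ C * (Dp p.1 * Dp p.2) := by
    intro p
    rw [hk0, hC, Finset.sum_mul]
    refine (norm_sum_le _ _).trans (Finset.sum_le_sum fun i _ => ?_)
    rw [norm_mul, norm_mul, Complex.norm_real, Real.norm_eq_abs, abs_of_nonneg (hlam i),
      RCLike.norm_conj]
    have h1 := hψb i p.1
    have h2 := hψb i p.2
    have h3 := hlam i
    have h4 := (norm_nonneg _).trans h1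
    calc lam i * (‖ψ' i p.1‖ * ‖ψ' i p.2‖)
        ≤ lam i * ((Cd i * Dp p.1) * (Cd i * Dp p.2)) := by gcongr
      _ = lam i * (Cd i * Cd i) * (Dp p.1 * Dp p.2) := by ring
  have hk0s : ∀ p : ℝ × ℝ, conj (k0 p.swap) = k0 p := by
    intro p
    rw [hk0]
    simp only [map_sum, map_mul, Complex.conj_ofReal, Complex.conj_conj, Prod.fst_swap,
      Prod.snd_swap]
    refine Finset.sum_congr rfl fun i _ => ?_
    ring
  have hm := kk_meas ε₀ c L hk0m
  obtain ⟨hn0, hn1⟩ := kk_memLp ε₀ c a C hk0b hε hc0 ha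
  rw [← hLdef] at hn0 hn1
  have hLp : ∀ n, MemLp (kk ε₀ c L k0 n) 2 (volume : Measure (ℝ × ℝ)) := by
    intro n
    refine ⟨(hm n).aestronglyMeasurable, ?_⟩
    rcases n with _ | n
    · exact hn0.trans_lt ENNReal.ofReal_lt_top
    · exact (hn1 n).trans_lt ENNReal.ofReal_lt_top
  choose F hF using fun n => exists_isKer (hLp n)
  set θ0 : ℝ := (1 + Real.sqrt a) / 2 with hθ0
  have hsa : 0 < Real.sqrt a := Real.sqrt_pos.2 ha
  have hθpos : 0 < θ0 / Real.sqrt c := by positivity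
  have hθlt : θ0 / Real.sqrt c < 1 := by
    rw [div_lt_one (Real.sqrt_pos.2 hc0)]
    apply Real.lt_sqrt_of_sq_lt
    have h1 : Real.sqrt a ^ 2 = a := Real.sq_sqrt ha.le
    have h2 : Real.sqrt a < 1 := by
      rw [Real.sqrt_lt' one_pos]
      simpa using ha1
    rw [hθ0, hc]
    nlinarith [sq_nonneg (1 - Real.sqrt a), mul_pos (sub_pos.2 h2) (sub_pos.2 h2)]
  set K : ℝ := C * (50 * Real.pi) + C * (10 * Real.pi * Real.sqrt (c / ε₀)) with hK
  have hK1 : 0 ≤ C * (50 * Real.pi) := by positivity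
  have hK2 : 0 ≤ C * (10 * Real.pi * Real.sqrt (c / ε₀)) := by positivity
  have hsOp : ∀ n : ℕ, 0 < ε₀ * c ^ n := fun n => by positivity
  have hmul : ∀ ε : ℝ, 0 < ε → IsMul (sm ε) (sOp ε) ∧ IsSelfAdjoint (sOp ε) := by
    intro ε hε
    obtain ⟨h1, h2, -, -⟩ := hL1 ε hε.le
    exact ⟨h1, IsSelfAdjoint.of_nonneg h2⟩
  refine ⟨F, K, θ0 / Real.sqrt c, by positivity, hθpos.le, hθlt, ?_, ?_, ?_, ?_⟩
  · -- F 0
    have h1 : IsKer (∑ i, (lam i : ℂ) • rk (ψ i))
        (fun p => ∑ i, (lam i : ℂ) * (ψ i p.1 * conj (ψ i p.2))) :=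
      IsKer.sum Finset.univ (fun i => (lam i : ℂ) • rk (ψ i))
        (fun i p => (lam i : ℂ) * (ψ i p.1 * conj (ψ i p.2)))
        fun i _ => (isKer_rk (ψ i)).smul _
    refine (hF 0).ext h1 ?_
    have h2 : ∀ᵐ x : ℝ, ∀ i, ψ' i x = ψ i x := ae_all_iff.2 hψe
    filter_upwards [ae_fst h2, ae_snd h2] with p h3 h4
    show k0 p = _
    rw [hk0]
    refine Finset.sum_congr rfl fun i _ => ?_
    rw [h3 i, h4 i]
  · -- self-adjoint
    intro n
    have h1 := (hF n).adj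
    have h2 : star (F n) = F n := by
      refine h1.ext (hF n) ?_
      filter_upwards with p
      exact kk_swap ε₀ c L hk0s n p
    exact h2
  · -- the recursion
    intro n
    have hpos := hsOp n
    have hpos2 : 0 < ε₀ * c ^ n / 2 := by positivity
    obtain ⟨m1, s1⟩ := hmul _ hpos
    obtain ⟨m2, s2⟩ := hmul _ hpos2
    have l1 := (hF (n + 1)).mul_left m1 s1 (sm_cont _).measurable (sm_le hpos.le)
    have l2 := (hF (n + 1)).mul_right m1 (sm_cont _).measurable (sm_le hpos.le)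
    have r1 := (hF n).conj_trans hW hWo
    have r2 := (hF n).add r1
    have r3 := r2.mul_left m2 s2 (sm_cont _).measurable (sm_le hpos2.le)
    have r4 := r3.mul_right m2 (sm_cont _).measurable (sm_le hpos2.le)
    refine (l1.add l2).ext r4 ?_
    filter_upwards with p
    have e := hh_mul (ε₀ * c ^ n) p
    have e' : ((sm (ε₀ * c ^ n) p.1 : ℂ) + sm (ε₀ * c ^ n) p.2) * hh (ε₀ * c ^ n) p
        = sm (ε₀ * c ^ n / 2) p.1 * sm (ε₀ * c ^ n / 2) p.2 := by
      exact_mod_cast e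
    show (sm (ε₀ * c ^ n) p.1 : ℂ) * ((hh (ε₀ * c ^ n) p : ℂ) *
        (kk ε₀ c L k0 n p + kk ε₀ c L k0 n (p + (L, L))))
      + (sm (ε₀ * c ^ n) p.2 : ℂ) * ((hh (ε₀ * c ^ n) p : ℂ) *
        (kk ε₀ c L k0 n p + kk ε₀ c L k0 n (p + (L, L)))) =
      (sm (ε₀ * c ^ n / 2) p.2 : ℂ) * ((sm (ε₀ * c ^ n / 2) p.1 : ℂ) *
        (kk ε₀ c L k0 n p + kk ε₀ c L k0 n (p + (L, L))))
    linear_combination (kk ε₀ c L k0 n p + kk ε₀ c L k0 n (p + (L, L))) * e'
  · -- Hilbert-Schmidt bound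
    intro n
    rcases n with _ | n
    · refine (hF 0).hs (by positivity) (hn0.trans (ENNReal.ofReal_le_ofReal ?_))
      rw [pow_zero, mul_one, hK]
      linarith
    · refine (hF (n + 1)).hs (by positivity) ((hn1 n).trans (ENNReal.ofReal_le_ofReal ?_))
      have h1 : 0 ≤ (θ0 / Real.sqrt c) ^ (n + 1) := by positivity
      calc C * (10 * Real.pi * Real.sqrt (c / ε₀) * (θ0 / Real.sqrt c) ^ (n + 1))
          = C * (10 * Real.pi * Real.sqrt (c / ε₀)) * (θ0 / Real.sqrt c) ^ (n + 1) := by ring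
        _ ≤ K * (θ0 / Real.sqrt c) ^ (n + 1) := by
            gcongr
            rw [hK]
            linarith

end Aluthge
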