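import Pool.Agent.Work.MP_943409_an_helper53.K3

/-!
Uniqueness in the moment problem behind the completeness of the Laguerre functions.
-/

open MeasureTheory Filter Topology ProbabilityTheory Complex

namespace Aluthge.Mod53

open Ker53

theorem integrable_Dp_sq : Integrable (fun x : ℝ => Dp x ^ 2) := by
  refine ⟨(Dp_cont.pow 2).aestronglyMeasurable, ?_⟩
  rw [hasFiniteIntegral_iff_ofReal (by filter_upwards with x; positivity)]
  exact lintegral_Dp_sq.trans_lt ENNReal.ofReal_lt_top

theorem memLp_Dp : MemLp Dp 2 (volume : Measure ℝ) :=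
  (memLp_two_iff_integrable_sq Dp_cont.aestronglyMeasurable).2 integrable_Dp_sq

theorem pow_le_exp (n : ℕ) {t : ℝ} (ht : 0 ≤ t) :
    t ^ n ≤ (n.factorial : ℝ) * 4 ^ n * Real.exp (t / 4) := by
  have h := Real.pow_div_factorial_le_exp (t / 4) (by positivity) n
  rw [div_pow, div_div, div_le_iff₀ (by positivity)] at h
  calc t ^ n ≤ Real.exp (t / 4) * (4 ^ n * (n.factorial : ℝ)) := h
    _ = _ := by ring

/-- The measures with density the positive part of `g`. -/
theorem density_facts {g : ℝ → ℝ} (hgm : Measurable g)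
    (hexp : ∀ s : ℝ, s ≤ 1 / 4 → Integrable (fun x : ℝ => Real.exp (s * Real.exp x) * g x)) :
    IsFiniteMeasure ((volume : Measure ℝ).withDensity fun x => ENNReal.ofReal (g x)) ∧
    (∀ s : ℝ, s ≤ 1 / 4 → Integrable (fun x : ℝ => Real.exp (s * Real.exp x))
      ((volume : Measure ℝ).withDensity fun x => ENNReal.ofReal (g x))) ∧
    ∀ n : ℕ, ∫ x : ℝ, ((Real.exp x : ℂ)) ^ n
      ∂((volume : Measure ℝ).withDensity fun x => ENNReal.ofReal (g x))
      = ∫ x : ℝ, ((max (g x) 0 * Real.exp x ^ n : ℝ) : ℂ) := by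
  have h0 : Integrable g := by
    have := hexp 0 (by norm_num)
    simpa using this
  refine ⟨?_, ?_, ?_⟩
  · refine isFiniteMeasure_withDensity ?_
    exact h0.lintegral_lt_top.ne
  · intro s hs
    rw [integrable_withDensity_iff_integrable_smul' (by fun_prop) (by simp)]
    refine (hexp s hs).mono (by fun_prop) ?_
    filter_upwards with x
    rw [ENNReal.toReal_ofReal', smul_eq_mul, norm_mul, norm_mul, mul_comm]
    gcongr
    rw [Real.norm_eq_abs, Real.norm_eq_abs, abs_of_nonneg (le_max_right _ _)]
    exact max_le (le_abs_self _) (abs_nonneg _)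
  · intro n
    rw [integral_withDensity_eq_integral_toReal_smul (by fun_prop) (by simp)]
    refine integral_congr_ae ?_
    filter_upwards with x
    rw [ENNReal.toReal_ofReal']
    push_cast
    simp

theorem moment_zero {f : ℝ → ℝ} (hfm : Measurable f) (hf : MemLp f 2 (volume : Measure ℝ))
    (h : ∀ n : ℕ, ∫ x : ℝ, Real.exp (-(Real.exp x) / 2) * Real.exp x ^ (n + 1) * f x = 0) :
    ∀ᵐ x : ℝ, f x = 0 := by
  set g : ℝ → ℝ := fun x => Real.exp (-(Real.exp x) / 2) * Real.exp x * f x with hg
  have hgm : Measurable g := by fun_prop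
  have hDf : Integrable (fun x => Dp x * f x) := MemLp.integrable_mul memLp_Dp hf
  have hexp : ∀ s : ℝ, s ≤ 1 / 4 → Integrable (fun x : ℝ => Real.exp (s * Real.exp x) * g x) := by
    intro s hs
    refine hDf.mono (by fun_prop) ?_
    filter_upwards with x
    have h1 : Real.exp (s * Real.exp x) * Real.exp (-(Real.exp x) / 2)
        ≤ Real.exp (-(Real.exp x) / 4) := by
      rw [← Real.exp_add, Real.exp_le_exp]
      have := Real.exp_pos x
      nlinarith
    simp only [hg, Dp, norm_mul, Real.norm_eq_abs, Real.abs_exp]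
    have h2 := abs_nonneg (f x)
    have h3 := Real.exp_pos x
    calc Real.exp (s * Real.exp x) * (Real.exp (-(Real.exp x) / 2) * Real.exp x * |f x|)
        = (Real.exp (s * Real.exp x) * Real.exp (-(Real.exp x) / 2)) * (Real.exp x * |f x|) := by
          ring
      _ ≤ Real.exp (-(Real.exp x) / 4) * (Real.exp x * |f x|) := by gcongr
      _ = Real.exp x * Real.exp (-(Real.exp x) / 4) * |f x| := by ring
  have hexp' : ∀ s : ℝ, s ≤ 1 / 4 →
      Integrable (fun x : ℝ => Real.exp (s * Real.exp x) * (-g x)) := by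
    intro s hs
    simpa using (hexp s hs).neg
  obtain ⟨f1, e1, m1⟩ := density_facts hgm hexp
  obtain ⟨f2, e2, m2⟩ := density_facts hgm.neg hexp'
  set μ := (volume : Measure ℝ).withDensity fun x => ENNReal.ofReal (g x) with hμ
  set ν := (volume : Measure ℝ).withDensity fun x => ENNReal.ofReal ((-g) x) with hν
  -- the strip
  set U : Set ℂ := {z : ℂ | z.re < 1 / 4} with hU
  have hUpre : IsPreconnected U := (convex_halfSpace_re_lt (1 / 4)).isPreconnected
  have hsub1 : Set.Iio (1 / 4 : ℝ) ⊆ interior (integrableExpSet Real.exp μ) :=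
    interior_maximal (fun s hs => e1 s (le_of_lt hs)) isOpen_Iio
  have hsub2 : Set.Iio (1 / 4 : ℝ) ⊆ interior (integrableExpSet Real.exp ν) :=
    interior_maximal (fun s hs => e2 s (le_of_lt hs)) isOpen_Iio
  have a1 : AnalyticOnNhd ℂ (complexMGF Real.exp μ) U := fun z hz =>
    analyticOnNhd_complexMGF z (hsub1 hz)
  have a2 : AnalyticOnNhd ℂ (complexMGF Real.exp ν) U := fun z hz =>
    analyticOnNhd_complexMGF z (hsub2 hz)
  have h0U : (0 : ℂ) ∈ U := by
    rw [hU]
    show (0 : ℂ).re < 1 / 4
    norm_num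
  -- integrability of the moments
  have hmom : ∀ n : ℕ, Integrable (fun x : ℝ => Real.exp x ^ n * g x) := by
    intro n
    have h1 := (hexp (1 / 4) le_rfl).const_mul ((n.factorial : ℝ) * 4 ^ n)
    refine h1.mono (by fun_prop) ?_
    filter_upwards with x
    have h2 := pow_le_exp n (Real.exp_pos x).le
    simp only [norm_mul, Real.norm_eq_abs]
    have h3 : 0 ≤ |g x| := abs_nonneg _
    have h4 : |Real.exp x ^ n| = Real.exp x ^ n := abs_of_nonneg (by positivity)
    have h5 : |(n.factorial : ℝ)| = (n.factorial : ℝ) := abs_of_nonneg (by positivity)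
    have h6 : |(4 : ℝ) ^ n| = 4 ^ n := abs_of_nonneg (by positivity)
    have h7 : Real.exp x / 4 = 1 / 4 * Real.exp x := by ring
    rw [h4, h5, h6, Real.abs_exp, ← h7]
    calc Real.exp x ^ n * |g x| ≤ ((n.factorial : ℝ) * 4 ^ n * Real.exp (Real.exp x / 4)) * |g x| := by
          gcongr
      _ = (n.factorial : ℝ) * 4 ^ n * (Real.exp (Real.exp x / 4) * |g x|) := by ring
  have hder : ∀ n : ℕ, iteratedDeriv n (complexMGF Real.exp μ - complexMGF Real.exp ν) 0 = 0 := by
    intro n
    have c1 : ContDiffAt ℂ n (complexMGF Real.exp μ) 0 := (a1 0 h0U).contDiffAt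
    have c2 : ContDiffAt ℂ n (complexMGF Real.exp ν) 0 := (a2 0 h0U).contDiffAt
    rw [iteratedDeriv_sub c1 c2, iteratedDeriv_complexMGF (hsub1 h0U),
      iteratedDeriv_complexMGF (hsub2 h0U)]
    simp only [zero_mul, Complex.exp_zero, mul_one]
    have eo : ∀ F : ℝ → ℝ, ∫ x, ((F x : ℝ) : ℂ) = ((∫ x, F x : ℝ) : ℂ) := fun F =>
      integral_ofReal
    rw [m1 n, m2 n, eo, eo, ← Complex.ofReal_sub]
    have i1 : Integrable (fun x : ℝ => max (g x) 0 * Real.exp x ^ n) := by
      refine (hmom n).mono (by fun_prop) ?_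
      filter_upwards with x
      rw [norm_mul, norm_mul, mul_comm]
      gcongr
      rw [Real.norm_eq_abs, Real.norm_eq_abs, abs_of_nonneg (le_max_right _ _)]
      exact max_le (le_abs_self _) (abs_nonneg _)
    have i2 : Integrable (fun x : ℝ => max ((-g) x) 0 * Real.exp x ^ n) := by
      refine (hmom n).mono (by fun_prop) ?_
      filter_upwards with x
      rw [norm_mul, norm_mul, mul_comm]
      gcongr
      rw [Real.norm_eq_abs, Real.norm_eq_abs, abs_of_nonneg (le_max_right _ _)]
      exact max_le (neg_le_abs _) (abs_nonneg _)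
    have h8 : (∫ x : ℝ, max (g x) 0 * Real.exp x ^ n) -
        (∫ x : ℝ, max ((-g) x) 0 * Real.exp x ^ n) = 0 := by
      rw [← integral_sub i1 i2]
      refine Eq.trans (integral_congr_ae ?_) (h n)
      filter_upwards with x
      have h9 : max (g x) 0 - max (-g x) 0 = g x := by
        rcases le_total 0 (g x) with h | h
        · rw [max_eq_left h, max_eq_right (by linarith)]; ring
        · rw [max_eq_right h, max_eq_left (by linarith)]; ring
      calc max (g x) 0 * Real.exp x ^ n - max (-g x) 0 * Real.exp x ^ n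
          = (max (g x) 0 - max (-g x) 0) * Real.exp x ^ n := by ring
        _ = g x * Real.exp x ^ n := by rw [h9]
        _ = _ := by simp only [hg]; ring
    rw [h8]
    simp
  have hana : AnalyticAt ℂ (complexMGF Real.exp μ - complexMGF Real.exp ν) 0 :=
    (a1 0 h0U).sub (a2 0 h0U)
  have htop : analyticOrderAt (complexMGF Real.exp μ - complexMGF Real.exp ν) 0 = ⊤ := by
    rw [ENat.eq_top_iff_forall_ge]
    intro n
    exact (natCast_le_analyticOrderAt_iff_iteratedDeriv_eq_zero hana).2 fun i _ => hder i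
  rw [analyticOrderAt_eq_top] at htop
  have hev : complexMGF Real.exp μ =ᶠ[𝓝 0] complexMGF Real.exp ν := by
    filter_upwards [htop] with z hz
    exact sub_eq_zero.1 hz
  have hEq : Set.EqOn (complexMGF Real.exp μ) (complexMGF Real.exp ν) U :=
    a1.eqOn_of_preconnected_of_eventuallyEq a2 hUpre h0U hev
  have hmap : μ.map Real.exp = ν.map Real.exp := by
    have := f1
    have := f2
    apply Measure.ext_of_charFun
    funext t
    rw [← complexMGF_mul_I Real.measurable_exp.aemeasurable,
      ← complexMGF_mul_I Real.measurable_exp.aemeasurable]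
    refine hEq ?_
    rw [hU]
    show ((t : ℂ) * I).re < 1 / 4
    simp
  have hemb : MeasurableEmbedding Real.exp :=
    Real.measurable_exp.measurableEmbedding Real.exp_injective
  have hμν : μ = ν := by
    rw [← hemb.comap_map μ, hmap, hemb.comap_map]
  have hfin : ∫⁻ x : ℝ, ENNReal.ofReal (g x) ≠ ⊤ := by
    have h0 : Integrable g := by simpa using hexp 0 (by norm_num)
    exact h0.lintegral_lt_top.ne
  rw [hμ, hν, withDensity_eq_iff (by fun_prop) (by fun_prop) hfin] at hμν
  filter_upwards [hμν] with x hx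
  have hg0 : g x = 0 := by
    rcases lt_trichotomy (g x) 0 with h1 | h1 | h1
    · have h2 : ENNReal.ofReal (g x) = 0 := ENNReal.ofReal_of_nonpos h1.le
      rw [h2] at hx
      have h3 := ENNReal.ofReal_eq_zero.1 hx.symm
      simp only [Pi.neg_apply] at h3
      linarith
    · exact h1
    · have h2 : ENNReal.ofReal ((-g) x) = 0 := ENNReal.ofReal_of_nonpos (by
        simp only [Pi.neg_apply]; linarith)
      rw [h2] at hx
      have h3 := ENNReal.ofReal_eq_zero.1 hx
      linarith
  have h5 : Real.exp (-(Real.exp x) / 2) * Real.exp x ≠ 0 := by positivity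
  exact (mul_eq_zero.1 hg0).resolve_left h5

end Aluthge.Mod53
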