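import Pool.Agent.Work.MP_943409_an_helper53.L1
import Pool.Agent.Work.MP_943409_an_helper53.L2

/-!
The Laguerre functions `uu i` of the variable `x = log t`.
-/

open MeasureTheory Filter Topology

namespace Aluthge.Mod53

open Ker53 Finset

/-- `exp (-e^x / 2) (e^x)^(n+1)`. -/
noncomputable def mo (n : ℕ) (x : ℝ) : ℝ := Real.exp (-(Real.exp x) / 2) * Real.exp x ^ (n + 1)

theorem mo_cont (n : ℕ) : Continuous (mo n) := by unfold mo; fun_prop

theorem mo_nonneg (n : ℕ) (x : ℝ) : 0 ≤ mo n x := by unfold mo; positivity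

theorem mo_le (n : ℕ) (x : ℝ) : mo n x ≤ ((n.factorial : ℝ) * 4 ^ n) * Dp x := by
  have h := pow_le_exp n (Real.exp_pos x).le
  have h1 : Real.exp (Real.exp x / 4) * Real.exp (-(Real.exp x) / 2)
      = Real.exp (-(Real.exp x) / 4) := by
    rw [← Real.exp_add]
    congr 1
    ring
  unfold mo Dp
  calc Real.exp (-(Real.exp x) / 2) * Real.exp x ^ (n + 1)
      = Real.exp x * (Real.exp x ^ n * Real.exp (-(Real.exp x) / 2)) := by ring
    _ ≤ Real.exp x * (((n.factorial : ℝ) * 4 ^ n * Real.exp (Real.exp x / 4)) *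
          Real.exp (-(Real.exp x) / 2)) := by gcongr
    _ = ((n.factorial : ℝ) * 4 ^ n) * (Real.exp x * (Real.exp (Real.exp x / 4) *
          Real.exp (-(Real.exp x) / 2))) := by ring
    _ = _ := by rw [h1]

theorem memLp_mo (n : ℕ) : MemLp (mo n) 2 (volume : Measure ℝ) := by
  refine (memLp_Dp.const_mul ((n.factorial : ℝ) * 4 ^ n)).mono (mo_cont n).aestronglyMeasurable ?_
  filter_upwards with x
  rw [Real.norm_eq_abs, Real.norm_eq_abs, abs_of_nonneg (mo_nonneg n x)]
  refine (mo_le n x).trans (le_abs_self _)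

/-- `∫ mo m * mo n = (m + n + 1)!`. -/
theorem integral_mo (m n : ℕ) : ∫ x : ℝ, mo m x * mo n x = ((m + n + 1).factorial : ℝ) := by
  have h := integral_image_eq_integral_abs_deriv_smul (s := Set.univ) (f := Real.exp)
    (f' := Real.exp) MeasurableSet.univ (fun x _ => (Real.hasDerivAt_exp x).hasDerivWithinAt)
    (Real.exp_injective.injOn) (fun v => Real.exp (-v) * v ^ (m + n + 1))
  rw [Measure.restrict_univ, Set.image_univ, Real.range_exp] at h
  have h1 : ∫ x : ℝ, mo m x * mo n x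
      = ∫ x : ℝ, |Real.exp x| • (Real.exp (-(Real.exp x)) * Real.exp x ^ (m + n + 1)) := by
    refine integral_congr_ae ?_
    filter_upwards with x
    rw [abs_of_pos (Real.exp_pos x), smul_eq_mul]
    unfold mo
    have h2 : Real.exp (-(Real.exp x)) = Real.exp (-(Real.exp x) / 2) *
        Real.exp (-(Real.exp x) / 2) := by
      rw [← Real.exp_add]
      congr 1
      ring
    rw [h2]
    ring
  rw [h1, ← h]
  have h3 := Real.Gamma_nat_eq_factorial (m + n + 1)
  rw [← h3, Real.Gamma_eq_integral (by positivity)]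
  refine setIntegral_congr_fun measurableSet_Ioi fun t ht => ?_
  have h4 : ((m + n + 1 : ℕ) : ℝ) + 1 - 1 = ((m + n + 1 : ℕ) : ℝ) := by ring
  show Real.exp (-t) * t ^ (m + n + 1) = Real.exp (-t) * t ^ (((m + n + 1 : ℕ) : ℝ) + 1 - 1)
  rw [h4, Real.rpow_natCast]

theorem integrable_mo_mul (m n : ℕ) : Integrable (fun x : ℝ => mo m x * mo n x) :=
  MemLp.integrable_mul (memLp_mo m) (memLp_mo n)

/-- The coefficient of `t^(m+1)` in `pp i`. -/
noncomputable def cf (i m : ℕ) : ℝ := (-1 : ℝ) ^ m * (i.choose m : ℝ) / ((m + 1).factorial : ℝ)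

/-- The normalised Laguerre functions. -/
noncomputable def uu (i : ℕ) (x : ℝ) : ℝ :=
  Real.sqrt ((i : ℝ) + 1) * (Real.exp (-(Real.exp x) / 2) * pp i (Real.exp x))

theorem uu_eq (i : ℕ) (x : ℝ) :
    uu i x = ∑ m ∈ range (i + 1), (Real.sqrt ((i : ℝ) + 1) * cf i m) * mo m x := by
  unfold uu pp mo cf
  rw [mul_sum, mul_sum]
  refine sum_congr rfl fun m _ => ?_
  ring

theorem uu_cont (i : ℕ) : Continuous (uu i) := by
  have : uu i = fun x => ∑ m ∈ range (i + 1), (Real.sqrt ((i : ℝ) + 1) * cf i m) * mo m x :=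
    funext (uu_eq i)
  rw [this]
  refine continuous_finsetSum _ fun m _ => ?_
  exact continuous_const.mul (mo_cont m)

theorem uu_le (i : ℕ) : ∃ C : ℝ, 0 ≤ C ∧ ∀ x, |uu i x| ≤ C * Dp x := by
  refine ⟨∑ m ∈ range (i + 1), |Real.sqrt ((i : ℝ) + 1) * cf i m| * ((m.factorial : ℝ) * 4 ^ m),
    by positivity, fun x => ?_⟩
  rw [uu_eq, sum_mul]
  refine (abs_sum_le_sum_abs _ _).trans (sum_le_sum fun m _ => ?_)
  rw [abs_mul, abs_of_nonneg (mo_nonneg m x), mul_assoc]
  exact mul_le_mul_of_nonneg_left (mo_le m x) (abs_nonneg _)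

theorem memLp_uu (i : ℕ) : MemLp (uu i) 2 (volume : Measure ℝ) := by
  obtain ⟨C, _, hC⟩ := uu_le i
  refine (memLp_Dp.const_mul C).mono (uu_cont i).aestronglyMeasurable ?_
  filter_upwards with x
  rw [Real.norm_eq_abs, Real.norm_eq_abs]
  exact (hC x).trans (le_abs_self _)

theorem integral_uu_le (i j : ℕ) (hji : j ≤ i) :
    ∫ x : ℝ, uu i x * uu j x = if i = j then 1 else 0 := by
  have h1 : ∀ x, uu i x * uu j x = ∑ l ∈ range (j + 1), ∑ m ∈ range (i + 1),
      ((Real.sqrt ((i : ℝ) + 1) * cf i m) * (Real.sqrt ((j : ℝ) + 1) * cf j l)) *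
        (mo m x * mo l x) := by
    intro x
    rw [uu_eq, uu_eq, mul_comm, sum_mul_sum]
    refine sum_congr rfl fun l _ => sum_congr rfl fun m _ => ?_
    ring
  have h2 : ∫ x : ℝ, uu i x * uu j x = ∑ l ∈ range (j + 1), ∑ m ∈ range (i + 1),
      ((Real.sqrt ((i : ℝ) + 1) * cf i m) * (Real.sqrt ((j : ℝ) + 1) * cf j l)) *
        ((m + l + 1).factorial : ℝ) := by
    simp_rw [h1]
    rw [integral_finsetSum _ fun l _ => integrable_finsetSum _ fun m _ =>
      (integrable_mo_mul m l).const_mul _]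
    refine sum_congr rfl fun l _ => ?_
    rw [integral_finsetSum _ fun m _ => (integrable_mo_mul m l).const_mul _]
    refine sum_congr rfl fun m _ => ?_
    rw [integral_const_mul, integral_mo]
  rw [h2]
  have h3 : ∑ l ∈ range (j + 1), ∑ m ∈ range (i + 1),
      ((Real.sqrt ((i : ℝ) + 1) * cf i m) * (Real.sqrt ((j : ℝ) + 1) * cf j l)) *
        ((m + l + 1).factorial : ℝ)
      = Real.sqrt ((i : ℝ) + 1) * Real.sqrt ((j : ℝ) + 1) *
        ∑ l ∈ range (j + 1), ∑ m ∈ range (i + 1),
      ((-1 : ℝ) ^ m * (i.choose m : ℝ) / ((m + 1).factorial : ℝ)) *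
      ((-1 : ℝ) ^ l * (j.choose l : ℝ) / ((l + 1).factorial : ℝ)) * ((m + l + 1).factorial : ℝ) := by
    rw [mul_sum]
    refine sum_congr rfl fun l _ => ?_
    rw [mul_sum]
    refine sum_congr rfl fun m _ => ?_
    unfold cf
    ring
  rw [h3, ortho_le i j hji]
  by_cases hij : i = j
  · subst hij
    rw [if_pos rfl, if_pos rfl, Real.mul_self_sqrt (by positivity)]
    field_simp
  · rw [if_neg hij, if_neg hij, mul_zero]

theorem integral_uu (i j : ℕ) : ∫ x : ℝ, uu i x * uu j x = if i = j then 1 else 0 := by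
  rcases le_total j i with h | h
  · exact integral_uu_le i j h
  · have h1 := integral_uu_le j i h
    have h2 : ∫ x : ℝ, uu i x * uu j x = ∫ x : ℝ, uu j x * uu i x := by
      refine integral_congr_ae ?_
      filter_upwards with x
      ring
    rw [h2, h1]
    by_cases hij : i = j
    · rw [if_pos hij, if_pos hij.symm]
    · rw [if_neg hij, if_neg (Ne.symm hij)]

theorem cf_self_ne (i : ℕ) : cf i i ≠ 0 := by
  unfold cf
  rw [Nat.choose_self]
  have : ((-1 : ℝ)) ^ i ≠ 0 := pow_ne_zero _ (by norm_num)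
  positivity

/-- A square integrable function orthogonal to the Laguerre functions is zero. -/
theorem complete_real {f : ℝ → ℝ} (hfm : Measurable f) (hf : MemLp f 2 (volume : Measure ℝ))
    (h : ∀ i : ℕ, ∫ x : ℝ, uu i x * f x = 0) : ∀ᵐ x : ℝ, f x = 0 := by
  refine moment_zero hfm hf fun n => ?_
  have hint : ∀ m, Integrable (fun x : ℝ => mo m x * f x) := fun m =>
    MemLp.integrable_mul (memLp_mo m) hf
  have key : ∀ n, ∫ x : ℝ, mo n x * f x = 0 := by
    intro n
    induction n using Nat.strong_induction_on with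
    | _ n ih =>
      have h1 := h n
      have h2 : ∀ x, uu n x * f x = ∑ m ∈ range (n + 1),
          (Real.sqrt ((n : ℝ) + 1) * cf n m) * (mo m x * f x) := by
        intro x
        rw [uu_eq, sum_mul]
        refine sum_congr rfl fun m _ => ?_
        ring
      simp_rw [h2] at h1
      rw [integral_finsetSum _ fun m _ => (hint m).const_mul _, sum_range_succ] at h1
      have h3 : ∑ m ∈ range n, ∫ x : ℝ,
          (Real.sqrt ((n : ℝ) + 1) * cf n m) * (mo m x * f x) = 0 := by
        refine sum_eq_zero fun m hm => ?_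
        rw [integral_const_mul, ih m (mem_range.1 hm), mul_zero]
      rw [h3, zero_add, integral_const_mul] at h1
      have h4 : Real.sqrt ((n : ℝ) + 1) * cf n n ≠ 0 :=
        mul_ne_zero (Real.sqrt_pos.2 (by positivity)).ne' (cf_self_ne n)
      exact (mul_eq_zero.1 h1).resolve_left h4
  exact key n

/-- The intertwining identity on the level of functions. -/
theorem uu_dilate (i : ℕ) {a : ℝ} (ha : 0 < a) (x : ℝ) :
    Real.exp (-((1 - a) / 2 * Real.exp x)) * uu i (x + Real.log a)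
      = ∑ l ∈ range (i + 1), (Real.sqrt (((i : ℝ) + 1) / ((l : ℝ) + 1)) *
        ((i.choose l : ℝ) * a ^ (l + 1) * (1 - a) ^ (i - l))) * uu l x := by
  have h1 : Real.exp (x + Real.log a) = a * Real.exp x := by
    rw [Real.exp_add, Real.exp_log ha, mul_comm]
  unfold uu
  rw [h1, pp_dilate]
  have h2 : Real.exp (-((1 - a) / 2 * Real.exp x)) * Real.exp (-(a * Real.exp x) / 2)
      = Real.exp (-(Real.exp x) / 2) := by
    rw [← Real.exp_add]
    congr 1
    ring
  have h3 : ∀ S : ℝ, Real.exp (-((1 - a) / 2 * Real.exp x)) *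
      (Real.sqrt ((i : ℝ) + 1) * (Real.exp (-(a * Real.exp x) / 2) * S))
      = Real.sqrt ((i : ℝ) + 1) * (Real.exp (-(Real.exp x) / 2) * S) := by
    intro S
    rw [← h2]
    ring
  rw [h3, mul_sum, mul_sum]
  refine sum_congr rfl fun l _ => ?_
  have h4 : Real.sqrt (((i : ℝ) + 1) / ((l : ℝ) + 1)) * Real.sqrt ((l : ℝ) + 1)
      = Real.sqrt ((i : ℝ) + 1) := by
    rw [← Real.sqrt_mul (by positivity)]
    congr 1
    field_simp
  rw [← h4]
  ring

end Aluthge.Mod53
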