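import Pool.Agent.Work.MP_943409_an.Interface
import Pool.Agent.Work.MP_943409_an_helper53.L3

/-!
Block MOD: the Laguerre functions are an orthonormal basis of `L²` in which the composition
operator is a translation composed with a multiplication.
-/

open MeasureTheory Filter Topology
open scoped ComplexOrder InnerProductSpace

namespace Aluthge.Mod53

open Ker53 Finset

theorem memLp_uuC (i : ℕ) : MemLp (fun x : ℝ => (uu i x : ℂ)) 2 (volume : Measure ℝ) :=
  (memLp_uu i).ofReal

/-- The Laguerre functions as elements of `L²`. -/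
noncomputable def bb (i : ℕ) : E := (memLp_uuC i).toLp _

theorem bb_ae (i : ℕ) : ∀ᵐ x : ℝ, bb i x = (uu i x : ℂ) := (memLp_uuC i).coeFn_toLp

theorem inner_bb (i : ℕ) (g : E) : ⟪bb i, g⟫_ℂ = ∫ x : ℝ, (uu i x : ℂ) * g x := by
  rw [L2.inner_def]
  refine integral_congr_ae ?_
  filter_upwards [bb_ae i] with x hx
  rw [hx, RCLike.inner_apply', Complex.conj_ofReal]

theorem orthonormal_bb : Orthonormal ℂ bb := by
  rw [orthonormal_iff_ite]
  intro i j
  rw [inner_bb]
  have h1 : ∫ x : ℝ, (uu i x : ℂ) * bb j x = ∫ x : ℝ, ((uu i x * uu j x : ℝ) : ℂ) := by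
    refine integral_congr_ae ?_
    filter_upwards [bb_ae j] with x hx
    rw [hx]
    push_cast
    rfl
  have eo : ∀ F : ℝ → ℝ, ∫ x, ((F x : ℝ) : ℂ) = ((∫ x, F x : ℝ) : ℂ) := fun F =>
    integral_ofReal
  rw [h1, eo, integral_uu]
  split_ifs <;> simp

theorem complete_bb (g : E) (h : ∀ i, ⟪bb i, g⟫_ℂ = 0) : g = 0 := by
  have hint : ∀ i, Integrable (fun x : ℝ => (uu i x : ℂ) * g x) := fun i =>
    MemLp.integrable_mul (memLp_uuC i) (Lp.memLp g)
  have hre : ∀ i, ∫ x : ℝ, uu i x * (g x).re = 0 := by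
    intro i
    have h1 := h i
    rw [inner_bb] at h1
    have h2 := integral_re (hint i)
    rw [h1] at h2
    rw [← show (RCLike.re (0 : ℂ) : ℝ) = 0 by simp, ← h2]
    refine integral_congr_ae ?_
    filter_upwards with x
    simp
  have him : ∀ i, ∫ x : ℝ, uu i x * (g x).im = 0 := by
    intro i
    have h1 := h i
    rw [inner_bb] at h1
    have h2 := integral_im (hint i)
    rw [h1] at h2
    rw [← show (RCLike.im (0 : ℂ) : ℝ) = 0 by simp, ← h2]
    refine integral_congr_ae ?_
    filter_upwards with x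
    simp
  have hm : Measurable (g : ℝ → ℂ) := (Lp.stronglyMeasurable g).measurable
  have z1 := complete_real (Complex.measurable_re.comp hm) (Lp.memLp g).re hre
  have z2 := complete_real (Complex.measurable_im.comp hm) (Lp.memLp g).im him
  rw [Lp.eq_zero_iff_ae_eq_zero]
  filter_upwards [z1, z2] with x h1 h2
  exact Complex.ext h1 h2

/-- The Laguerre basis. -/
noncomputable def basis : HilbertBasis ℕ ℂ E :=
  HilbertBasis.mkOfOrthogonalEqBot orthonormal_bb (by
    rw [Submodule.eq_bot_iff]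
    intro g hg
    refine complete_bb g fun i => ?_
    exact (Submodule.mem_orthogonal _ _).1 hg _ (Submodule.subset_span ⟨i, rfl⟩))

theorem basis_coe (i : ℕ) : basis i = bb i := by
  unfold basis
  rw [HilbertBasis.coe_mkOfOrthogonalEqBot]

theorem basis_e (i : ℕ) : basis.repr.symm (e i) = bb i := by
  rw [← basis_coe i]
  exact HilbertBasis.repr_symm_single basis i

theorem decay_bb (i : ℕ) : Decay (bb i) := by
  obtain ⟨C, hC0, hC⟩ := uu_le i
  refine ⟨C, hC0, ?_⟩
  filter_upwards [bb_ae i] with x hx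
  rw [hx, Complex.norm_real, Real.norm_eq_abs]
  exact hC x

theorem symm_trans {a : ℝ} {W : E ≃ₗᵢ[ℂ] E} (hW : IsTrans a W) (g : E) :
    ∀ᵐ x : ℝ, (W.symm g) x = g (x + Real.log a) := by
  have h1 := hW (W.symm g)
  rw [LinearIsometryEquiv.apply_symm_apply] at h1
  have h2 := (measurePreserving_add_right (volume : Measure ℝ) (Real.log a)).quasiMeasurePreserving.ae h1
  filter_upwards [h2] with x hx
  rw [hx, add_sub_cancel_right]

theorem isV_lin : IsV (fun i => (i : ℝ) + 1) := by
  refine ⟨by norm_num, fun i => ?_, fun i => ?_⟩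
  · push_cast; linarith
  · push_cast
    have : ((i : ℝ) + 1) * ((i : ℝ) + 1 + 1) = ((i : ℝ) + 2) * ((i : ℝ) + 1) := by ring
    exact this.le

theorem inner_e (l : ℕ) (x : L2N) : ⟪e l, x⟫_ℂ = x l := by
  unfold e
  rw [lp.inner_single_left]
  simp

theorem star_mat {M : L2N →L[ℂ] L2N} {m : ℕ → ℕ → ℝ} (hM : IsMat M m)
    (h0 : ∀ i l, i < l → m i l = 0) (i : ℕ) :
    ContinuousLinearMap.adjoint M (e i) = ∑ l ∈ range (i + 1), (m i l : ℂ) • e l := by
  have h1 : ∀ l, (ContinuousLinearMap.adjoint M (e i)) l = (m i l : ℂ) := by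
    intro l
    rw [← inner_e, ContinuousLinearMap.adjoint_inner_right, ← inner_conj_symm, inner_e, hM i l,
      Complex.conj_ofReal]
  ext l
  rw [h1, ← inner_e l, inner_sum]
  simp_rw [inner_smul_right, inner_e]
  have h2 : ∀ k, (e k : L2N) l = if k = l then 1 else 0 := by
    intro k
    unfold e
    rw [lp.single_apply]
    by_cases h : l = k
    · subst h
      simp
    · rw [if_neg (Ne.symm h)]
      simp [h]
  simp_rw [h2, mul_ite, mul_one, mul_zero]
  rw [sum_ite_eq' (range (i + 1)) l]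
  split_ifs with h3
  · rfl
  · rw [h0 i l (by rw [mem_range] at h3; omega)]
    simp

theorem s_symm {a : ℝ} {W : E ≃ₗᵢ[ℂ] E} (ha : 0 < a) (hW : IsTrans a W)
    {s : E →L[ℂ] E} (hs : IsMul (fun x => Real.exp (-((1 - a) / 2 * Real.exp x))) s) (i : ℕ) :
    s (W.symm (bb i)) = ∑ l ∈ range (i + 1),
      ((entry a (fun i => (i : ℝ) + 1) i l : ℝ) : ℂ) • bb l := by
  have hsum : ∀ F : Finset ℕ, ∀ᵐ x : ℝ, (∑ l ∈ F,
      ((entry a (fun i => (i : ℝ) + 1) i l : ℝ) : ℂ) • bb l : E) x
      = ∑ l ∈ F, (((entry a (fun i => (i : ℝ) + 1) i l) * uu l x : ℝ) : ℂ) := by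
    intro F
    induction F using Finset.induction_on with
    | empty =>
        simp only [sum_empty]
        exact Lp.coeFn_zero _ _ _
    | insert k F hk ih =>
        rw [sum_insert hk]
        filter_upwards [Lp.coeFn_add (((entry a (fun i => (i : ℝ) + 1) i k : ℝ) : ℂ) • bb k)
          (∑ l ∈ F, ((entry a (fun i => (i : ℝ) + 1) i l : ℝ) : ℂ) • bb l : E), ih,
          Lp.coeFn_smul ((entry a (fun i => (i : ℝ) + 1) i k : ℝ) : ℂ) (bb k), bb_ae k]
          with x h1 h2 h3 h4
        rw [h1, Pi.add_apply, h2, h3, Pi.smul_apply, h4, sum_insert hk]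
        push_cast
        rfl
  have hsh := (measurePreserving_add_right (volume : Measure ℝ)
    (Real.log a)).quasiMeasurePreserving.ae (bb_ae i)
  refine Lp.ext ?_
  filter_upwards [hs (W.symm (bb i)), symm_trans hW (bb i), hsum (range (i + 1)), hsh]
    with x h1 h2 h3 h4
  rw [h1, h2, h3, h4, ← Complex.ofReal_mul, uu_dilate i ha x, Complex.ofReal_sum]
  refine sum_congr rfl fun l _ => ?_
  unfold entry
  rfl

end Aluthge.Mod53

namespace Aluthge

open Mod53 Finset

/-- Block MOD. -/
theorem stmt_MOD (hL : Stmt_L) (hM1 : Stmt_M1) : Stmt_MOD := by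
  intro a W ha ha1 hW
  refine ⟨basis.repr.symm, fun i => ?_, fun x => ?_⟩
  · rw [basis_e]
    exact decay_bb i
  · obtain ⟨hmul, hpos, _, _⟩ := hL.1 ((1 - a) / 2) (by linarith)
    have hmat := (hM1 a (fun i => (i : ℝ) + 1) ha ha1 isV_lin).1
    set M := opA a (fun i => (i : ℝ) + 1) with hM
    set s := sOp ((1 - a) / 2) with hs
    have hsa : IsSelfAdjoint s := IsSelfAdjoint.of_nonneg hpos
    have hzero : ∀ i l, i < l → entry a (fun i => (i : ℝ) + 1) i l = 0 := by
      intro i l hil
      unfold entry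
      rw [Nat.choose_eq_zero_of_lt hil]
      simp
    have key : ∀ i, ⟪bb i, basis.repr.symm (M x)⟫_ℂ = ⟪bb i, W (s (basis.repr.symm x))⟫_ℂ := by
      intro i
      have h1 : ⟪bb i, basis.repr.symm (M x)⟫_ℂ
          = ⟪∑ l ∈ range (i + 1), ((entry a (fun i => (i : ℝ) + 1) i l : ℝ) : ℂ) • bb l,
            basis.repr.symm x⟫_ℂ := by
        rw [← basis_e i, LinearIsometryEquiv.inner_map_map,
          ← ContinuousLinearMap.adjoint_inner_left, star_mat hmat hzero i,
          ← LinearIsometryEquiv.inner_map_map basis.repr.symm, map_sum]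
        simp_rw [map_smul, basis_e]
      have h2 : ⟪bb i, W (s (basis.repr.symm x))⟫_ℂ
          = ⟪s (W.symm (bb i)), basis.repr.symm x⟫_ℂ := by
        have h3 : ⟪bb i, W (s (basis.repr.symm x))⟫_ℂ
            = ⟪W (W.symm (bb i)), W (s (basis.repr.symm x))⟫_ℂ := by
          rw [LinearIsometryEquiv.apply_symm_apply]
        rw [h3, LinearIsometryEquiv.inner_map_map]
        exact (ContinuousLinearMap.isSelfAdjoint_iff_isSymmetric.1 hsa _ _).symm
      rw [h1, h2, s_symm ha hW hmul i]
    rw [← sub_eq_zero]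
    refine complete_bb _ fun i => ?_
    rw [inner_sub_right, key i, sub_self]

end Aluthge
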