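import Pool.Agent.Work.MP_943409_an.Interface

/-!
Operators on `L²(ℝ)` with a square integrable kernel.
-/

open Complex MeasureTheory Filter Topology
open scoped ComplexOrder InnerProductSpace ComplexConjugate

namespace Aluthge

/-- The square integrable function `(x, y) ↦ f x * conj (g y)`. -/
theorem memLp_tensor (f g : E) :
    MemLp (fun p : ℝ × ℝ => f p.1 * conj (g p.2)) 2 (volume : Measure (ℝ × ℝ)) := by
  have hf : MemLp (f : ℝ → ℂ) 2 volume := Lp.memLp f
  have hg : MemLp (g : ℝ → ℂ) 2 volume := Lp.memLp g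
  have hm : AEStronglyMeasurable (fun p : ℝ × ℝ => f p.1 * conj (g p.2))
      (volume : Measure (ℝ × ℝ)) := by
    have h1 : AEStronglyMeasurable (fun p : ℝ × ℝ => f p.1) (volume : Measure (ℝ × ℝ)) :=
      hf.1.comp_fst
    have h2 : AEStronglyMeasurable (fun p : ℝ × ℝ => g p.2) (volume : Measure (ℝ × ℝ)) :=
      hg.1.comp_snd
    exact h1.mul (Complex.continuous_conj.comp_aestronglyMeasurable h2)
  rw [memLp_two_iff_integrable_sq_norm hm]
  have h1 := (memLp_two_iff_integrable_sq_norm hf.1).1 hf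
  have h2 := (memLp_two_iff_integrable_sq_norm hg.1).1 hg
  have h3 := h1.mul_prod h2
  refine h3.congr ?_
  filter_upwards with p
  simp [mul_pow]

/-- The tensor as an element of `L²(ℝ²)`. -/
noncomputable def tens (f g : E) : Lp ℂ 2 (volume : Measure (ℝ × ℝ)) :=
  (memLp_tensor f g).toLp _

theorem coe_tens (f g : E) :
    (tens f g : ℝ × ℝ → ℂ) =ᵐ[volume] fun p => f p.1 * conj (g p.2) :=
  MemLp.coeFn_toLp _

theorem ae_fst {P : ℝ → Prop} (h : ∀ᵐ x : ℝ, P x) : ∀ᵐ p : ℝ × ℝ, P p.1 :=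
  (Measure.quasiMeasurePreserving_fst (μ := (volume : Measure ℝ)) (ν := (volume : Measure ℝ))).ae h

theorem ae_snd {P : ℝ → Prop} (h : ∀ᵐ x : ℝ, P x) : ∀ᵐ p : ℝ × ℝ, P p.2 :=
  (Measure.quasiMeasurePreserving_snd (μ := (volume : Measure ℝ)) (ν := (volume : Measure ℝ))).ae h

theorem tens_add_left (f f' g : E) : tens (f + f') g = tens f g + tens f' g := by
  apply Lp.ext
  filter_upwards [coe_tens (f + f') g, coe_tens f g, coe_tens f' g,
    Lp.coeFn_add (tens f g) (tens f' g), ae_fst (Lp.coeFn_add f f')] with p h1 h2 h3 h4 h5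
  rw [h1, h4, Pi.add_apply, h2, h3, h5, Pi.add_apply]
  ring

theorem tens_smul_left (c : ℂ) (f g : E) : tens (c • f) g = c • tens f g := by
  apply Lp.ext
  filter_upwards [coe_tens (c • f) g, coe_tens f g,
    Lp.coeFn_smul c (tens f g), ae_fst (Lp.coeFn_smul c f)] with p h1 h2 h4 h5
  rw [h1, h4, Pi.smul_apply, h2, h5, Pi.smul_apply]
  simp [mul_assoc]

theorem tens_add_right (f g g' : E) : tens f (g + g') = tens f g + tens f g' := by
  apply Lp.ext
  filter_upwards [coe_tens f (g + g'), coe_tens f g, coe_tens f g',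
    Lp.coeFn_add (tens f g) (tens f g'), ae_snd (Lp.coeFn_add g g')] with p h1 h2 h3 h4 h5
  rw [h1, h4, Pi.add_apply, h2, h3, h5, Pi.add_apply]
  simp [mul_add]

theorem tens_smul_right (c : ℂ) (f g : E) : tens f (c • g) = conj c • tens f g := by
  apply Lp.ext
  filter_upwards [coe_tens f (c • g), coe_tens f g,
    Lp.coeFn_smul (conj c) (tens f g), ae_snd (Lp.coeFn_smul c g)] with p h1 h2 h4 h5
  rw [h1, h4, Pi.smul_apply, h2, h5, Pi.smul_apply]
  simp
  ring

/-- Inner product of two tensors. -/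
theorem inner_tens (f g f' g' : E) :
    ⟪tens f g, tens f' g'⟫_ℂ = ⟪f, f'⟫_ℂ * conj ⟪g, g'⟫_ℂ := by
  rw [L2.inner_def, L2.inner_def, L2.inner_def, ← integral_conj]
  have := integral_prod_mul (μ := (volume : Measure ℝ)) (ν := (volume : Measure ℝ))
    (fun x => ⟪f x, f' x⟫_ℂ) (fun y => conj ⟪g y, g' y⟫_ℂ)
  rw [← this]
  refine integral_congr_ae ?_
  filter_upwards [coe_tens f g, coe_tens f' g'] with p h1 h2
  rw [h1, h2]
  simp only [RCLike.inner_apply, map_mul, Complex.conj_conj]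
  ring

theorem norm_tens (f g : E) : ‖tens f g‖ = ‖f‖ * ‖g‖ := by
  have h := inner_tens f g f g
  rw [inner_self_eq_norm_sq_to_K, inner_self_eq_norm_sq_to_K, inner_self_eq_norm_sq_to_K] at h
  have h2 : ‖tens f g‖ ^ 2 = (‖f‖ * ‖g‖) ^ 2 := by
    have : ((‖tens f g‖ ^ 2 : ℝ) : ℂ) = (((‖f‖ * ‖g‖) ^ 2 : ℝ) : ℂ) := by
      push_cast
      rw [mul_pow]
      simpa using h
    exact_mod_cast this
  exact (pow_left_inj₀ (norm_nonneg _) (by positivity) two_ne_zero).1 h2

/-- The sesquilinear form attached to a kernel. -/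
noncomputable def kerForm (κ : Lp ℂ 2 (volume : Measure (ℝ × ℝ))) : E →L⋆[ℂ] E →L[ℂ] ℂ :=
  LinearMap.mkContinuous₂
    (LinearMap.mk₂'ₛₗ (starRingEnd ℂ) (RingHom.id ℂ) (fun g f => ⟪κ, tens f g⟫_ℂ)
      (fun g g' f => by rw [tens_add_right, inner_add_right])
      (fun c g f => by rw [tens_smul_right, inner_smul_right]; rfl)
      (fun g f f' => by rw [tens_add_left, inner_add_right])
      (fun c g f => by rw [tens_smul_left, inner_smul_right]; rfl))
    ‖κ‖ (fun g f => by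
      simp only [LinearMap.mk₂'ₛₗ_apply]
      calc ‖⟪κ, tens f g⟫_ℂ‖ ≤ ‖κ‖ * ‖tens f g‖ := norm_inner_le_norm _ _
        _ = ‖κ‖ * ‖g‖ * ‖f‖ := by rw [norm_tens]; ring)

/-- The operator with kernel `κ`. -/
noncomputable def kOp (κ : Lp ℂ 2 (volume : Measure (ℝ × ℝ))) : E →L[ℂ] E :=
  InnerProductSpace.continuousLinearMapOfBilin (kerForm κ)

theorem inner_kOp (κ : Lp ℂ 2 (volume : Measure (ℝ × ℝ))) (g f : E) :
    ⟪kOp κ g, f⟫_ℂ = ⟪κ, tens f g⟫_ℂ := by
  unfold kOp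
  rw [InnerProductSpace.continuousLinearMapOfBilin_apply]
  rfl

/-- `A` is the operator with kernel `k`. -/
def IsKer (A : E →L[ℂ] E) (k : ℝ × ℝ → ℂ) : Prop :=
  MemLp k 2 (volume : Measure (ℝ × ℝ)) ∧
    ∀ g f : E, ⟪A g, f⟫_ℂ = ∫ p : ℝ × ℝ, conj (k p) * (f p.1 * conj (g p.2))

theorem inner_toLp (k : ℝ × ℝ → ℂ) (hk : MemLp k 2 (volume : Measure (ℝ × ℝ))) (f g : E) :
    ⟪hk.toLp k, tens f g⟫_ℂ = ∫ p : ℝ × ℝ, conj (k p) * (f p.1 * conj (g p.2)) := by
  rw [L2.inner_def]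
  refine integral_congr_ae ?_
  filter_upwards [hk.coeFn_toLp, coe_tens f g] with p h1 h2
  rw [h1, h2]
  simp only [RCLike.inner_apply]
  ring

theorem exists_isKer {k : ℝ × ℝ → ℂ} (hk : MemLp k 2 (volume : Measure (ℝ × ℝ))) :
    ∃ A : E →L[ℂ] E, IsKer A k :=
  ⟨kOp (hk.toLp k), hk, fun g f => by rw [inner_kOp, inner_toLp]⟩

theorem IsKer.inner {A : E →L[ℂ] E} {k : ℝ × ℝ → ℂ} (h : IsKer A k) (g f : E) :
    ⟪A g, f⟫_ℂ = ⟪h.1.toLp k, tens f g⟫_ℂ := by
  rw [h.2, inner_toLp]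

theorem IsKer.ext {A B : E →L[ℂ] E} {k k' : ℝ × ℝ → ℂ} (h : IsKer A k) (h' : IsKer B k')
    (hkk : k =ᵐ[volume] k') : A = B := by
  ext1 g
  refine ext_inner_right ℂ fun f => ?_
  rw [h.2, h'.2]
  refine integral_congr_ae ?_
  filter_upwards [hkk] with p hp
  rw [hp]

theorem integrable_ker {k : ℝ × ℝ → ℂ} (hk : MemLp k 2 (volume : Measure (ℝ × ℝ))) (f g : E) :
    Integrable (fun p : ℝ × ℝ => conj (k p) * (f p.1 * conj (g p.2))) := by
  have h1 : MemLp (fun p => conj (k p)) 2 (volume : Measure (ℝ × ℝ)) := by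
    have := hk.star
    exact this
  exact MemLp.integrable_mul h1 (memLp_tensor f g)

theorem IsKer.add {A B : E →L[ℂ] E} {k k' : ℝ × ℝ → ℂ} (h : IsKer A k) (h' : IsKer B k') :
    IsKer (A + B) (fun p => k p + k' p) := by
  refine ⟨h.1.add h'.1, fun g f => ?_⟩
  rw [add_apply, inner_add_left, h.2, h'.2,
    ← integral_add (integrable_ker h.1 f g) (integrable_ker h'.1 f g)]
  refine integral_congr_ae ?_
  filter_upwards with p
  simp only [map_add]
  ring

theorem IsKer.smul {A : E →L[ℂ] E} {k : ℝ × ℝ → ℂ} (h : IsKer A k) (c : ℂ) :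
    IsKer (c • A) (fun p => c * k p) := by
  refine ⟨h.1.const_mul c, fun g f => ?_⟩
  rw [smul_apply, inner_smul_left, h.2, ← integral_const_mul]
  refine integral_congr_ae ?_
  filter_upwards with p
  simp only [map_mul]
  ring

theorem IsKer.adj {A : E →L[ℂ] E} {k : ℝ × ℝ → ℂ} (h : IsKer A k) :
    IsKer (star A) (fun p => conj (k p.swap)) := by
  have hsw : MeasurePreserving (Prod.swap : ℝ × ℝ → ℝ × ℝ) volume volume :=
    Measure.measurePreserving_swap
  have h0 : MemLp (fun p : ℝ × ℝ => k p.swap) 2 (volume : Measure (ℝ × ℝ)) :=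
    h.1.comp_measurePreserving hsw
  refine ⟨h0.star, fun g f => ?_⟩
  rw [ContinuousLinearMap.star_eq_adjoint, ContinuousLinearMap.adjoint_inner_left,
    ← inner_conj_symm, h.2, ← integral_conj]
  have := hsw.integral_comp (MeasurableEquiv.prodComm (α := ℝ) (β := ℝ)).measurableEmbedding
    (fun p : ℝ × ℝ => conj (conj (k p) * (g p.1 * conj (f p.2))))
  rw [← this]
  refine integral_congr_ae ?_
  filter_upwards with p
  simp only [map_mul, Complex.conj_conj, Prod.fst_swap, Prod.snd_swap]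
  ring

end Aluthge
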