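import Pool.Agent.Work.MP_943409_an_helper53.K1

/-!
Operators with a kernel: multiplication operators, translations, Hilbert-Schmidt norm, rank one.
-/

open Complex MeasureTheory Filter Topology
open scoped ComplexOrder InnerProductSpace ComplexConjugate

namespace Aluthge

theorem IsKer.mul_left {A M : E →L[ℂ] E} {k : ℝ × ℝ → ℂ} {m : ℝ → ℝ} (h : IsKer A k)
    (hM : IsMul m M) (hs : IsSelfAdjoint M) (hm : Measurable m) (hb : ∀ x, |m x| ≤ 1) :
    IsKer (M * A) (fun p => (m p.1 : ℂ) * k p) := by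
  refine ⟨?_, fun g f => ?_⟩
  · refine h.1.mono ?_ ?_
    · exact (Complex.measurable_ofReal.comp (hm.comp measurable_fst)).aestronglyMeasurable.mul h.1.1
    · filter_upwards with p
      rw [norm_mul, Complex.norm_real, Real.norm_eq_abs]
      calc |m p.1| * ‖k p‖ ≤ 1 * ‖k p‖ := by gcongr; exact hb _
        _ = ‖k p‖ := one_mul _
  · have e1 : ⟪(M * A) g, f⟫_ℂ = ⟪A g, M f⟫_ℂ := by
      have : (M * A) g = M (A g) := rfl
      rw [this]
      have h2 := ContinuousLinearMap.adjoint_inner_left M f (A g)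
      rw [← ContinuousLinearMap.star_eq_adjoint, hs.star_eq] at h2
      exact h2
    rw [e1, h.2]
    refine integral_congr_ae ?_
    filter_upwards [ae_fst (hM f)] with p hp
    rw [hp]
    simp only [map_mul, Complex.conj_ofReal]
    ring

theorem IsKer.mul_right {A M : E →L[ℂ] E} {k : ℝ × ℝ → ℂ} {m : ℝ → ℝ} (h : IsKer A k)
    (hM : IsMul m M) (hm : Measurable m) (hb : ∀ x, |m x| ≤ 1) :
    IsKer (A * M) (fun p => (m p.2 : ℂ) * k p) := by
  refine ⟨?_, fun g f => ?_⟩
  · refine h.1.mono ?_ ?_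
    · exact (Complex.measurable_ofReal.comp (hm.comp measurable_snd)).aestronglyMeasurable.mul h.1.1
    · filter_upwards with p
      rw [norm_mul, Complex.norm_real, Real.norm_eq_abs]
      calc |m p.2| * ‖k p‖ ≤ 1 * ‖k p‖ := by gcongr; exact hb _
        _ = ‖k p‖ := one_mul _
  · have : (A * M) g = A (M g) := rfl
    rw [this, h.2]
    refine integral_congr_ae ?_
    filter_upwards [ae_snd (hM g)] with p hp
    rw [hp]
    simp only [map_mul, Complex.conj_ofReal]
    ring

theorem IsKer.conj_trans {A Wo : E →L[ℂ] E} {k : ℝ × ℝ → ℂ} {a : ℝ} {W : E ≃ₗᵢ[ℂ] E}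
    (h : IsKer A k) (hW : IsTrans a W) (hWo : Wo = (W.toContinuousLinearEquiv : E →L[ℂ] E)) :
    IsKer (star Wo * A * Wo) (fun p => k (p + (Real.log a, Real.log a))) := by
  have hmp : MeasurePreserving (fun p : ℝ × ℝ => p + (Real.log a, Real.log a)) volume volume :=
    measurePreserving_add_right volume _
  refine ⟨h.1.comp_measurePreserving hmp, fun g f => ?_⟩
  have e1 : ⟪(star Wo * A * Wo) g, f⟫_ℂ = ⟪A (Wo g), Wo f⟫_ℂ := by
    have : (star Wo * A * Wo) g = star Wo (A (Wo g)) := rfl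
    rw [this, ContinuousLinearMap.star_eq_adjoint, ContinuousLinearMap.adjoint_inner_left]
  have e2 : ∀ g : E, Wo g = W g := fun g => by rw [hWo]; rfl
  rw [e1, h.2, e2, e2]
  have e3 := integral_add_right_eq_self (μ := (volume : Measure (ℝ × ℝ)))
    (fun p : ℝ × ℝ => conj (k p) * (f (p.1 - Real.log a) * conj (g (p.2 - Real.log a))))
    (Real.log a, Real.log a)
  have e4 : ∫ p : ℝ × ℝ, conj (k p) * ((W f) p.1 * conj ((W g) p.2))
      = ∫ p : ℝ × ℝ, conj (k p) * (f (p.1 - Real.log a) * conj (g (p.2 - Real.log a))) := by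
    refine integral_congr_ae ?_
    filter_upwards [ae_fst (hW f), ae_snd (hW g)] with p h1 h2
    rw [h1, h2]
  rw [e4, ← e3]
  refine integral_congr_ae ?_
  filter_upwards with p
  simp

/-- The Hilbert-Schmidt norm of an operator with kernel `k` is at most the `L²` norm of `k`. -/
theorem IsKer.hs {A : E →L[ℂ] E} {k : ℝ × ℝ → ℂ} (h : IsKer A k) {c : ℝ} (hc : 0 ≤ c)
    (hk : eLpNorm k 2 (volume : Measure (ℝ × ℝ)) ≤ ENNReal.ofReal c) : HS A c := by
  refine ⟨hc, fun n e he => ?_⟩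
  set κ := h.1.toLp k with hκ
  have hκc : ‖κ‖ ≤ c := by
    rw [hκ, Lp.norm_toLp]
    exact ENNReal.toReal_le_of_le_ofReal hc hk
  set x : Lp ℂ 2 (volume : Measure (ℝ × ℝ)) := ∑ i, tens (A (e i)) (e i) with hx
  set S : ℝ := ∑ i, ‖A (e i)‖ ^ 2 with hS
  have hS0 : 0 ≤ S := Finset.sum_nonneg fun i _ => by positivity
  have h1 : ⟪κ, x⟫_ℂ = (S : ℂ) := by
    rw [hx, inner_sum, hS]
    push_cast
    refine Finset.sum_congr rfl fun i _ => ?_
    rw [← h.inner, inner_self_eq_norm_sq_to_K]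
    simp
  have h2 : ‖x‖ ^ 2 = S := by
    have : ⟪x, x⟫_ℂ = (S : ℂ) := by
      rw [hx, sum_inner, hS]
      push_cast
      refine Finset.sum_congr rfl fun i _ => ?_
      rw [inner_sum, Finset.sum_eq_single i]
      · rw [inner_tens, inner_self_eq_norm_sq_to_K, inner_self_eq_norm_sq_to_K, he.1 i]
        simp
      · intro j _ hij
        rw [inner_tens, he.2 hij.symm]
        simp
      · simp
    rw [inner_self_eq_norm_sq_to_K] at this
    have h3 : (((‖x‖ ^ 2 : ℝ)) : ℂ) = (S : ℂ) := by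
      push_cast
      simpa using this
    exact_mod_cast h3
  have h3 : S ≤ ‖κ‖ * ‖x‖ := by
    have := norm_inner_le_norm (𝕜 := ℂ) κ x
    rw [h1, Complex.norm_real, Real.norm_eq_abs, abs_of_nonneg hS0] at this
    exact this
  have h4 : S ≤ c * ‖x‖ := h3.trans (by gcongr)
  have h5 : 0 ≤ ‖x‖ := norm_nonneg _
  rcases eq_or_lt_of_le h5 with h6 | h6
  · rw [← h2, ← h6]
    nlinarith [sq_nonneg c]
  · have h7 : ‖x‖ ≤ c := by
      rw [← h2] at h4
      nlinarith
    rw [← h2]
    gcongr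

theorem isKer_rk (v : E) : IsKer (rk v) (fun p => v p.1 * conj (v p.2)) := by
  refine ⟨memLp_tensor v v, fun g f => ?_⟩
  rw [← inner_toLp _ (memLp_tensor v v)]
  have : ⟪(memLp_tensor v v).toLp _, tens f g⟫_ℂ = ⟪tens v v, tens f g⟫_ℂ := rfl
  rw [this, inner_tens]
  unfold rk
  rw [ContinuousLinearMap.smulRight_apply, innerSL_apply_apply, inner_smul_left]
  ring

theorem isKer_zero : IsKer 0 (fun _ => 0) := by
  refine ⟨MemLp.zero', fun g f => ?_⟩
  simp

theorem IsKer.sum {ι : Type*} (s : Finset ι) (A : ι → E →L[ℂ] E) (k : ι → ℝ × ℝ → ℂ)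
    (h : ∀ i ∈ s, IsKer (A i) (k i)) :
    IsKer (∑ i ∈ s, A i) (fun p => ∑ i ∈ s, k i p) := by
  classical
  induction s using Finset.induction_on with
  | empty => simpa using isKer_zero
  | insert i s hi ih =>
    have h1 := h i (Finset.mem_insert_self i s)
    have h2 := ih fun j hj => h j (Finset.mem_insert_of_mem hj)
    simp only [Finset.sum_insert hi]
    exact h1.add h2

theorem IsKer.congr {A : E →L[ℂ] E} {k k' : ℝ × ℝ → ℂ} (h : IsKer A k)
    (hk : k =ᵐ[volume] k') : IsKer A k' := by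
  refine ⟨h.1.ae_eq hk, fun g f => ?_⟩
  rw [h.2]
  refine integral_congr_ae ?_
  filter_upwards [hk] with p hp
  rw [hp]

end Aluthge
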