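import Mathlib

/-!
Finite identities for the Laguerre model.
-/

namespace Aluthge.Mod53

open Finset

/-- One step of the alternating binomial sums. -/
theorem alt_step (f : ℕ → ℝ) (i : ℕ) :
    ∑ m ∈ range (i + 2), (-1 : ℝ) ^ m * ((i + 1).choose m : ℝ) * f m
      = ∑ m ∈ range (i + 1), (-1 : ℝ) ^ m * (i.choose m : ℝ) * (f m - f (m + 1)) := by
  have h1 : ∑ m ∈ range (i + 2), (-1 : ℝ) ^ m * ((i + 1).choose m : ℝ) * f m
      = ∑ m ∈ range (i + 1), (-1 : ℝ) ^ (m + 1) * ((i + 1).choose (m + 1) : ℝ) * f (m + 1)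
        + f 0 := by
    rw [sum_range_succ']
    simp
  have h2 : ∑ m ∈ range (i + 1), (-1 : ℝ) ^ m * (i.choose m : ℝ) * f m
      = ∑ m ∈ range (i + 1), (-1 : ℝ) ^ (m + 1) * (i.choose (m + 1) : ℝ) * f (m + 1) + f 0 := by
    have h3 : ∑ m ∈ range (i + 2), (-1 : ℝ) ^ m * (i.choose m : ℝ) * f m
        = ∑ m ∈ range (i + 1), (-1 : ℝ) ^ (m + 1) * (i.choose (m + 1) : ℝ) * f (m + 1)
          + f 0 := by
      rw [sum_range_succ']
      simp
    rw [← h3, sum_range_succ _ (i + 1), Nat.choose_succ_self]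
    simp
  rw [h1]
  have h4 : ∑ m ∈ range (i + 1), (-1 : ℝ) ^ m * (i.choose m : ℝ) * (f m - f (m + 1))
      = ∑ m ∈ range (i + 1), (-1 : ℝ) ^ m * (i.choose m : ℝ) * f m
        - ∑ m ∈ range (i + 1), (-1 : ℝ) ^ m * (i.choose m : ℝ) * f (m + 1) := by
    rw [← sum_sub_distrib]
    refine sum_congr rfl fun m _ => ?_
    ring
  rw [h4, h2]
  have h5 : ∑ m ∈ range (i + 1), (-1 : ℝ) ^ (m + 1) * ((i + 1).choose (m + 1) : ℝ) * f (m + 1)
      = ∑ m ∈ range (i + 1), (-1 : ℝ) ^ (m + 1) * (i.choose (m + 1) : ℝ) * f (m + 1)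
        - ∑ m ∈ range (i + 1), (-1 : ℝ) ^ m * (i.choose m : ℝ) * f (m + 1) := by
    rw [← sum_sub_distrib]
    refine sum_congr rfl fun m _ => ?_
    rw [Nat.choose_succ_succ]
    push_cast
    ring
  rw [h5]
  ring

/-- The alternating sums of `C(m + x, l)`. -/
theorem alt_choose (i : ℕ) : ∀ x l : ℕ,
    ∑ m ∈ range (i + 1), (-1 : ℝ) ^ m * (i.choose m : ℝ) * ((m + x).choose l : ℝ)
      = if i ≤ l then (-1 : ℝ) ^ i * (x.choose (l - i) : ℝ) else 0 := by
  induction i with
  | zero =>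
      intro x l
      simp
  | succ i ih =>
      intro x l
      rw [alt_step (fun m => ((m + x).choose l : ℝ)) i]
      have h1 : ∑ m ∈ range (i + 1), (-1 : ℝ) ^ m * (i.choose m : ℝ) *
          (((m + x).choose l : ℝ) - ((m + 1 + x).choose l : ℝ))
          = ∑ m ∈ range (i + 1), (-1 : ℝ) ^ m * (i.choose m : ℝ) * ((m + x).choose l : ℝ)
            - ∑ m ∈ range (i + 1), (-1 : ℝ) ^ m * (i.choose m : ℝ) *
              ((m + (x + 1)).choose l : ℝ) := by
        rw [← sum_sub_distrib]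
        refine sum_congr rfl fun m _ => ?_
        have : m + 1 + x = m + (x + 1) := by ring
        rw [this]
        ring
      rw [h1, ih x l, ih (x + 1) l]
      by_cases h : i + 1 ≤ l
      · have h2 : i ≤ l := by omega
        rw [if_pos h2, if_pos h2, if_pos h]
        obtain ⟨d, rfl⟩ := Nat.exists_eq_add_of_le h
        have e1 : i + 1 + d - i = d + 1 := by omega
        have e2 : i + 1 + d - (i + 1) = d := by omega
        rw [e1, e2, Nat.choose_succ_succ]
        push_cast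
        ring
      · rw [if_neg h]
        by_cases h2 : i ≤ l
        · have : l = i := by omega
          subst this
          simp
        · rw [if_neg h2, if_neg h2]
          ring

/-- Orthogonality relations. -/
theorem ortho_le (i j : ℕ) (hji : j ≤ i) :
    ∑ l ∈ range (j + 1), ∑ m ∈ range (i + 1),
      ((-1 : ℝ) ^ m * (i.choose m : ℝ) / ((m + 1).factorial : ℝ)) *
      ((-1 : ℝ) ^ l * (j.choose l : ℝ) / ((l + 1).factorial : ℝ)) * ((m + l + 1).factorial : ℝ)
      = if i = j then 1 / ((i : ℝ) + 1) else 0 := by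
  have h1 : ∀ l ∈ range (j + 1), ∑ m ∈ range (i + 1),
      ((-1 : ℝ) ^ m * (i.choose m : ℝ) / ((m + 1).factorial : ℝ)) *
      ((-1 : ℝ) ^ l * (j.choose l : ℝ) / ((l + 1).factorial : ℝ)) * ((m + l + 1).factorial : ℝ)
      = (-1 : ℝ) ^ l * (j.choose l : ℝ) / ((l : ℝ) + 1) *
        (if i ≤ l then (-1 : ℝ) ^ i * ((l + 1).choose (l - i) : ℝ) else 0) := by
    intro l _
    rw [← alt_choose i (l + 1) l, mul_sum]
    refine sum_congr rfl fun m _ => ?_
    have h2 : ((m + (l + 1)).choose l : ℝ) * (l.factorial : ℝ) * ((m + 1).factorial : ℝ)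
        = ((m + l + 1).factorial : ℝ) := by
      have h3 := Nat.choose_mul_factorial_mul_factorial (n := m + (l + 1)) (k := l) (by omega)
      have e : m + (l + 1) - l = m + 1 := by omega
      rw [e] at h3
      have e2 : m + (l + 1) = m + l + 1 := by ring
      rw [e2] at h3
      rw [e2]
      exact_mod_cast h3
    rw [← h2, Nat.factorial_succ l]
    have h4 : ((m + 1).factorial : ℝ) ≠ 0 := by positivity
    have h5 : (l.factorial : ℝ) ≠ 0 := by positivity
    have h6 : ((l : ℝ) + 1) ≠ 0 := by positivity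
    push_cast
    field_simp
  rw [sum_congr rfl h1]
  by_cases h : i = j
  · subst h
    rw [if_pos rfl, sum_eq_single i]
    · rw [if_pos le_rfl]
      have : ((-1 : ℝ) ^ i) * ((-1 : ℝ) ^ i) = 1 := by
        rw [← mul_pow]; norm_num
      simp only [Nat.choose_self, Nat.sub_self, Nat.choose_zero_right]
      field_simp
      rw [sq, this]
      simp
    · intro l hl hne
      rw [mem_range] at hl
      rw [if_neg (by omega), mul_zero]
    · intro hni
      exact absurd (mem_range.2 (Nat.lt_succ_self i)) hni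
  · rw [if_neg h]
    refine sum_eq_zero fun l hl => ?_
    rw [mem_range] at hl
    rw [if_neg (by omega), mul_zero]

/-- The polynomial `p_i(t) = ∑ C(i,m) (-1)^m t^(m+1) / (m+1)!`. -/
noncomputable def pp (i : ℕ) (t : ℝ) : ℝ :=
  ∑ m ∈ range (i + 1), (-1 : ℝ) ^ m * (i.choose m : ℝ) / ((m + 1).factorial : ℝ) * t ^ (m + 1)

theorem binom_inner (i m : ℕ) (hm : m ≤ i) (a : ℝ) :
    ∑ l ∈ range (i + 1), (i.choose l : ℝ) * (l.choose m : ℝ) * (a ^ (l + 1) * (1 - a) ^ (i - l))
      = (i.choose m : ℝ) * a ^ (m + 1) := by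
  obtain ⟨d, rfl⟩ := Nat.exists_eq_add_of_le hm
  have h0 : m + d + 1 = m + (d + 1) := by ring
  rw [h0, sum_range_add]
  have h1 : ∑ x ∈ range m, (((m + d).choose x : ℕ) : ℝ) * (x.choose m : ℝ) *
      (a ^ (x + 1) * (1 - a) ^ (m + d - x)) = 0 := by
    refine sum_eq_zero fun l hl => ?_
    rw [mem_range] at hl
    rw [Nat.choose_eq_zero_of_lt hl]
    simp
  rw [h1, zero_add]
  have h2 : ∀ k ∈ range (d + 1), (((m + d).choose (m + k) : ℕ) : ℝ) * ((m + k).choose m : ℝ) *
      (a ^ (m + k + 1) * (1 - a) ^ (m + d - (m + k)))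
      = ((m + d).choose m : ℝ) * a ^ (m + 1) * (a ^ k * (1 - a) ^ (d - k) * (d.choose k : ℝ)) := by
    intro k hk
    rw [mem_range] at hk
    have h3 : (m + d).choose (m + k) * (m + k).choose m = (m + d).choose m * d.choose k := by
      have h4 := Nat.choose_mul (n := m + d) (k := m + k) (s := m) (by omega)
      have e1 : m + d - m = d := by omega
      have e2 : m + k - m = k := by omega
      rw [e1, e2] at h4
      exact h4
    have h5 : (((m + d).choose (m + k) : ℕ) : ℝ) * ((m + k).choose m : ℝ)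
        = ((m + d).choose m : ℝ) * (d.choose k : ℝ) := by exact_mod_cast h3
    have e3 : m + d - (m + k) = d - k := by omega
    rw [h5, e3]
    ring
  rw [sum_congr rfl h2, ← mul_sum, ← add_pow]
  simp

/-- The dilation identity. -/
theorem pp_dilate (i : ℕ) (a t : ℝ) :
    pp i (a * t) = ∑ l ∈ range (i + 1),
      (i.choose l : ℝ) * (a ^ (l + 1) * (1 - a) ^ (i - l)) * pp l t := by
  unfold pp
  have h1 : ∀ l ∈ range (i + 1), (i.choose l : ℝ) * (a ^ (l + 1) * (1 - a) ^ (i - l)) *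
      ∑ m ∈ range (l + 1), (-1 : ℝ) ^ m * (l.choose m : ℝ) / ((m + 1).factorial : ℝ) * t ^ (m + 1)
      = ∑ m ∈ range (i + 1), (i.choose l : ℝ) * (l.choose m : ℝ) *
        (a ^ (l + 1) * (1 - a) ^ (i - l)) *
        ((-1 : ℝ) ^ m / ((m + 1).factorial : ℝ) * t ^ (m + 1)) := by
    intro l hl
    rw [mem_range] at hl
    have h2 : ∑ m ∈ range (l + 1),
        (-1 : ℝ) ^ m * (l.choose m : ℝ) / ((m + 1).factorial : ℝ) * t ^ (m + 1)
        = ∑ m ∈ range (i + 1),
        (-1 : ℝ) ^ m * (l.choose m : ℝ) / ((m + 1).factorial : ℝ) * t ^ (m + 1) := by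
      refine sum_subset (range_subset_range.2 (by omega)) fun m _ hm => ?_
      rw [mem_range, not_lt] at hm
      rw [Nat.choose_eq_zero_of_lt (by omega)]
      simp
    rw [h2, mul_sum]
    refine sum_congr rfl fun m _ => ?_
    ring
  rw [sum_congr rfl h1, sum_comm]
  refine sum_congr rfl fun m hm => ?_
  rw [mem_range] at hm
  rw [← sum_mul, binom_inner i m (by omega) a, mul_pow]
  ring

end Aluthge.Mod53
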